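import Pool.Agent.N124.QD.K5

/-!
# Second order asymptotics of the vertical average of the kernel (statement `S_E3`)
-/

set_option autoImplicit false

namespace Pool.Agent.N124.QD

open MeasureTheory Set Filter Topology
open scoped Real
open Pool.Agent.N275.QD Pool.Agent.N789.KF

lemma Ev.int_mul {d δ t τ σ x x' Y : ℝ} (h : Ev d δ t τ σ x x' Y) {f : ℝ × ℝ → ℝ} {K : ℝ}
    (hK : 0 ≤ K) (hm : Measurable f)
    (hf : ∀ p : ℝ × ℝ, |√t * p.1| < Y → |√t * p.1 + √σ * p.2| < Y →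
      |f p| ≤ K * (1 + p.1 ^ 2 + p.2 ^ 2)) :
    Integrable (fun p => W t τ σ x x' Y p * f p) (volume : Measure (ℝ × ℝ)) := by
  refine Integrable.mono' (int_Bd.const_mul (K * (√(π / 2) * (2 / d))))
    ((measurable_W _ _ _ _ _ _).mul hm).aestronglyMeasurable ?_
  filter_upwards with p
  rw [Real.norm_eq_abs]
  exact h.W_mul_le hK hf p

lemma Ev.int_W {d δ t τ σ x x' Y : ℝ} (h : Ev d δ t τ σ x x' Y) :
    Integrable (W t τ σ x x' Y) (volume : Measure (ℝ × ℝ)) := by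
  have := h.int_mul (f := fun _ => 1) zero_le_one measurable_const (fun p _ _ => by
      rw [abs_one]; have := sq_nonneg p.1; have := sq_nonneg p.2; linarith)
  simpa using this

lemma Ev.pos {d δ t τ σ x x' Y : ℝ} (h : Ev d δ t τ σ x x' Y) : 0 < x ∧ 0 < x' ∧ 0 < τ := by
  have h1 := h.d0
  have h2 := h.x1
  have h3 := h.x2
  have h4 := h.τ1
  have h5 := h.t0
  refine ⟨by linarith, by linarith, by linarith⟩

lemma Ev.J_of {d δ t τ σ x x' Y : ℝ} (h : Ev d δ t τ σ x x' Y) (F : ℂ → ℂ → ℝ) (G : ℝ × ℝ → ℝ)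
    (hFG : ∀ p : ℝ × ℝ, F ((x : ℂ) + ((√t * p.1 : ℝ) : ℂ) * Complex.I)
        ((x' : ℂ) + ((√t * p.1 + √σ * p.2 : ℝ) : ℂ) * Complex.I) =
      Nm τ x x' * (thn τ x x' (rr x (√t * p.1)) (rr x' (√t * p.1 + √σ * p.2)) * G p))
    (hG : Integrable (fun p => W t τ σ x x' Y p * G p) (volume : Measure (ℝ × ℝ))) :
    Ja σ Y F x x' = √t * Nm τ x x' * ∫ p, W t τ σ x x' Y p * G p := by
  rw [Ja_eq h.t0 h.σ0, mul_assoc]
  congr 1
  rw [Measure.volume_eq_prod] at hG ⊢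
  rw [integral_prod _ hG, ← integral_const_mul]
  congr 1
  ext s
  rw [← integral_const_mul]
  congr 1
  ext v
  rw [hFG (s, v)]
  unfold W
  ring

lemma angle_le {d Y δ y z : ℝ} (hd : 0 < d) (hY : 2 * Y / d ≤ δ) (hz : d / 2 ≤ z) (hy : |y| < Y) :
    |Real.arctan (y / z)| ≤ δ := by
  have hz0 : 0 < z := by linarith
  have k1 : |Real.arctan (y / z)| ≤ 2 / d * |y| := by
    refine (abs_arctan_le _).trans ?_
    rw [abs_div, abs_of_pos hz0, div_le_iff₀ hz0]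
    calc |y| = 2 / d * |y| * (d / 2) := by field_simp
      _ ≤ 2 / d * |y| * z := by gcongr
  refine k1.trans ?_
  calc 2 / d * |y| ≤ 2 / d * Y := by gcongr
    _ = 2 * Y / d := by ring
    _ ≤ δ := hY

/-- the averages in terms of the weight -/
lemma Ev.J_eq {d δ t τ σ x x' Y α φ : ℝ} (h : Ev d δ t τ σ x x' Y) (hα : 0 < α) (hφ : 0 < φ)
    (hδ : 0 < δ) (hαφ : φ + δ + α < π / 2) :
    Ja σ Y (Th τ) x x' = √t * Nm τ x x' * ∫ p, W t τ σ x x' Y p ∧
    Ja σ Y (Gr α φ τ) x x' - Df α φ * Ja σ Y (Th τ) x x' =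
      √t * Nm τ x x' * ∫ p, W t τ σ x x' Y p *
        qq α φ (XX t τ σ x x' p) (aa t x p) (aa' t σ x' p) := by
  obtain ⟨hx, hx', hτ⟩ := h.pos
  have hd := h.d0
  have hφ2 : φ < π / 2 := by linarith
  obtain ⟨C, hC, hb⟩ := Qf_abs_le hα hφ hδ hαφ
  have hXpos : ∀ p : ℝ × ℝ, 0 < XX t τ σ x x' p := by
    intro p
    have a1 := rr_pos hx (√t * p.1)
    have a2 := rr_pos hx' (√t * p.1 + √σ * p.2)
    unfold XX
    positivity
  have iW := h.int_W
  have iQ : Integrable (fun p => W t τ σ x x' Y p *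
      (Qf α φ (XX t τ σ x x' p) (aa t x p) (aa' t σ x' p) / Kf 0 (XX t τ σ x x' p)))
      (volume : Measure (ℝ × ℝ)) := by
    apply h.int_mul hC (measurable_QX α φ t τ σ x x')
    intro p h1 h2
    have hK := Kf_zero_pos (hXpos p)
    have h3 := hb _ _ _ (hXpos p) (angle_le hd h.Yδ h.x1 h1) (angle_le hd h.Yδ h.x2 h2)
    rw [abs_div, abs_of_pos hK, div_le_iff₀ hK]
    refine h3.trans ?_
    have h4 : C * Kf 0 (XX t τ σ x x' p) * 1 ≤ C * Kf 0 (XX t τ σ x x' p) *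
        (1 + p.1 ^ 2 + p.2 ^ 2) := by
      apply mul_le_mul_of_nonneg_left _ (by positivity)
      have := sq_nonneg p.1
      have := sq_nonneg p.2
      linarith
    calc C * Kf 0 (XX t τ σ x x' p) ≤ C * Kf 0 (XX t τ σ x x' p) * (1 + p.1 ^ 2 + p.2 ^ 2) := by
          linarith
      _ = _ := by ring
  have e1 : Ja σ Y (Th τ) x x' = √t * Nm τ x x' * ∫ p, W t τ σ x x' Y p := by
    have := h.J_of (Th τ) (fun _ => 1) (fun p => by rw [Th_eq hτ hx hx', mul_one])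
      (by simpa using iW)
    simpa using this
  have e2 : Ja σ Y (Gr α φ τ) x x' = √t * Nm τ x x' * ∫ p, W t τ σ x x' Y p *
      (Qf α φ (XX t τ σ x x' p) (aa t x p) (aa' t σ x' p) / Kf 0 (XX t τ σ x x' p)) := by
    apply h.J_of _ _ _ iQ
    intro p
    rw [Gr_eq hφ hφ2 hτ hx hx']
    rfl
  refine ⟨e1, ?_⟩
  rw [e1, e2]
  have e3 : √t * Nm τ x x' * (∫ p, W t τ σ x x' Y p *
      (Qf α φ (XX t τ σ x x' p) (aa t x p) (aa' t σ x' p) / Kf 0 (XX t τ σ x x' p))) -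
      Df α φ * (√t * Nm τ x x' * ∫ p, W t τ σ x x' Y p) =
      √t * Nm τ x x' * ∫ p, (W t τ σ x x' Y p *
      (Qf α φ (XX t τ σ x x' p) (aa t x p) (aa' t σ x' p) / Kf 0 (XX t τ σ x x' p)) -
      Df α φ * W t τ σ x x' Y p) := by
    rw [integral_sub iQ (iW.const_mul _), integral_const_mul]
    ring
  have iD : Integrable (fun p => W t τ σ x x' Y p *
      (Qf α φ (XX t τ σ x x' p) (aa t x p) (aa' t σ x' p) / Kf 0 (XX t τ σ x x' p)) -
      Df α φ * W t τ σ x x' Y p) (volume : Measure (ℝ × ℝ)) := iQ.sub (iW.const_mul _)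
  rw [e3, integral_sym iD]
  congr 1
  congr 1
  ext p
  simp only [W_neg, XX_neg, aa_neg, aa'_neg]
  unfold qq
  ring

/-- **the limit theorem along sequences** -/
theorem Sq.main {d : ℝ} {t τ σ x x' Y : ℕ → ℝ} (h : Sq d t τ σ x x' Y) {α φ ε : ℝ} (hα : 0 < α)
    (hφ : 0 < φ) (hαφ : φ + α < π / 2) (hε : 0 < ε) :
    ∀ᶠ n in atTop, 0 < Ja (σ n) (Y n) (Th (τ n)) (x n) (x' n) ∧
      |Ja (σ n) (Y n) (Gr α φ (τ n)) (x n) (x' n) - (Df α φ + t n / (2 * d ^ 2) * mm 2 α) *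
        Ja (σ n) (Y n) (Th (τ n)) (x n) (x' n)| ≤
      ε * t n * Ja (σ n) (Y n) (Th (τ n)) (x n) (x' n) := by
  obtain ⟨δ, hδ⟩ : ∃ δ : ℝ, δ = (π / 2 - φ - α) / 2 := ⟨_, rfl⟩
  have hδ0 : 0 < δ := by rw [hδ]; linarith
  have hδ1 : φ + δ + α < π / 2 := by rw [hδ]; linarith
  have hd := h.d0
  have hW := h.int_W_lim
  have hq := h.int_q_lim hα hφ hδ0 hδ1
  rw [int_Wl_mul, E2m_eq hα hφ hαφ] at hq
  have hI := int_Wl_pos hd
  obtain ⟨I, hI2⟩ : ∃ I : ℝ, I = ∫ p : ℝ × ℝ, Wl d p := ⟨_, rfl⟩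
  rw [← hI2] at hW hq hI
  have hlim : Tendsto (fun n => (∫ p, W (t n) (τ n) (σ n) (x n) (x' n) (Y n) p *
      (qq α φ (XX (t n) (τ n) (σ n) (x n) (x' n) p) (aa (t n) (x n) p) (aa' (t n) (σ n) (x' n) p) / t n)) -
      mm 2 α / (2 * d ^ 2) * ∫ p, W (t n) (τ n) (σ n) (x n) (x' n) (Y n) p) atTop (𝓝 0) := by
    have := hq.sub (hW.const_mul (mm 2 α / (2 * d ^ 2)))
    have e : ((2 * D2m α φ + mm 2 α) / 2 - D2m α φ) / d ^ 2 * I - mm 2 α / (2 * d ^ 2) * I = 0 := by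
      field_simp
      ring
    rw [e] at this
    exact this
  have h1 : ∀ᶠ n in atTop, |(∫ p, W (t n) (τ n) (σ n) (x n) (x' n) (Y n) p *
      (qq α φ (XX (t n) (τ n) (σ n) (x n) (x' n) p) (aa (t n) (x n) p) (aa' (t n) (σ n) (x' n) p) / t n)) -
      mm 2 α / (2 * d ^ 2) * ∫ p, W (t n) (τ n) (σ n) (x n) (x' n) (Y n) p| < ε * (I / 2) := by
    have := (continuous_abs.tendsto 0).comp hlim
    rw [abs_zero] at this
    exact this.eventually_lt_const (by positivity)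
  have h2 : ∀ᶠ n in atTop, I / 2 < ∫ p, W (t n) (τ n) (σ n) (x n) (x' n) (Y n) p :=
    hW.eventually_const_lt (by linarith)
  filter_upwards [h1, h2, h.ev hδ0] with n h1 h2 hE
  obtain ⟨e1, e2⟩ := hE.J_eq hα hφ hδ0 hδ1
  obtain ⟨hx, hx', hτ⟩ := hE.pos
  have ht := hE.t0
  have hN := Nm_pos hτ (x n) (x' n)
  have hst : 0 < √(t n) := Real.sqrt_pos.2 ht
  have e3 : ∫ p, W (t n) (τ n) (σ n) (x n) (x' n) (Y n) p *
      (qq α φ (XX (t n) (τ n) (σ n) (x n) (x' n) p) (aa (t n) (x n) p) (aa' (t n) (σ n) (x' n) p) / t n) =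
      (∫ p, W (t n) (τ n) (σ n) (x n) (x' n) (Y n) p *
      qq α φ (XX (t n) (τ n) (σ n) (x n) (x' n) p) (aa (t n) (x n) p) (aa' (t n) (σ n) (x' n) p)) / t n := by
    rw [← integral_div]
    congr 1
    ext p
    ring
  rw [e3] at h1
  obtain ⟨Wn, hWn⟩ : ∃ Wn, Wn = ∫ p, W (t n) (τ n) (σ n) (x n) (x' n) (Y n) p := ⟨_, rfl⟩
  obtain ⟨Q, hQ⟩ : ∃ Q, Q = ∫ p, W (t n) (τ n) (σ n) (x n) (x' n) (Y n) p *
      qq α φ (XX (t n) (τ n) (σ n) (x n) (x' n) p) (aa (t n) (x n) p) (aa' (t n) (σ n) (x' n) p) := ⟨_, rfl⟩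
  rw [← hWn] at h1 h2 e1
  rw [← hQ] at h1 e2
  have hW0 : 0 < Wn := by linarith
  rw [e1] at e2 ⊢
  refine ⟨by positivity, ?_⟩
  have e4 : Ja (σ n) (Y n) (Gr α φ (τ n)) (x n) (x' n) - (Df α φ + t n / (2 * d ^ 2) * mm 2 α) *
      (√(t n) * Nm (τ n) (x n) (x' n) * Wn) =
      √(t n) * Nm (τ n) (x n) (x' n) * t n * (Q / t n - mm 2 α / (2 * d ^ 2) * Wn) := by
    have : Ja (σ n) (Y n) (Gr α φ (τ n)) (x n) (x' n) = √(t n) * Nm (τ n) (x n) (x' n) * Q +
      Df α φ * (√(t n) * Nm (τ n) (x n) (x' n) * Wn) := by linarith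
    rw [this]
    field_simp
    ring
  rw [e4, abs_mul, abs_of_pos (by positivity : 0 < √(t n) * Nm (τ n) (x n) (x' n) * t n)]
  calc √(t n) * Nm (τ n) (x n) (x' n) * t n * |Q / t n - mm 2 α / (2 * d ^ 2) * Wn|
      ≤ √(t n) * Nm (τ n) (x n) (x' n) * t n * (ε * Wn) := by
        apply mul_le_mul_of_nonneg_left _ (by positivity)
        have : ε * (I / 2) ≤ ε * Wn := by gcongr
        linarith
    _ = _ := by ring

/-- **E3** -/
theorem e3 : S_E3 := by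
  intro α φ d ε hα hφ hαφ hd hε
  by_contra hcon
  push Not at hcon
  have hη : ∀ n : ℕ, (0 : ℝ) < 1 / ((n : ℝ) + 1) := fun n => Nat.one_div_pos_of_nat
  choose t τ σ x x' Y h1 h2 h3 h4 h5 h6 h7 h8 h9 h10 h11 using fun n : ℕ => hcon _ (hη n)
  have hlim : Tendsto (fun n : ℕ => 1 / ((n : ℝ) + 1)) atTop (𝓝 0) :=
    tendsto_one_div_add_atTop_nhds_zero_nat
  have sq_of : ∀ (u : ℕ → ℝ), (∀ n, |u n| ≤ 1 / ((n : ℝ) + 1)) → Tendsto u atTop (𝓝 0) := by
    intro u hu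
    exact squeeze_zero_norm (fun n => by rw [Real.norm_eq_abs]; exact hu n) hlim
  have ht : Tendsto t atTop (𝓝 0) := sq_of _ fun n => by
    rw [abs_of_pos (h1 n)]; exact (h2 n).le
  have hS : Sq d t τ σ x x' Y := by
    refine ⟨hd, h1, h4, h8, ht, ?_, ?_, ?_, ?_, ?_, ?_⟩
    · have : Tendsto (fun n => τ n / t n - 1) atTop (𝓝 0) := sq_of _ fun n => by
        have ht0 := h1 n
        have e : τ n / t n - 1 = (τ n - t n) / t n := by field_simp
        rw [e, abs_div, abs_of_pos ht0, div_le_iff₀ ht0]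
        exact h3 n
      have := this.add_const 1
      simpa using this
    · exact sq_of _ fun n => by
        have ht0 := h1 n
        rw [abs_of_pos (div_pos (h4 n) ht0), div_le_iff₀ ht0]
        exact h5 n
    · have := (sq_of _ h6).add_const d
      simpa using this
    · have := (sq_of _ h7).add_const d
      simpa using this
    · have h12 : Tendsto (fun n => Y n ^ 3) atTop (𝓝 0) := sq_of _ fun n => by
        have hY := h8 n
        rw [abs_of_pos (by positivity)]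
        refine (h10 n).trans ?_
        have ha : t n ≤ 1 := by
          refine (h2 n).le.trans ?_
          rw [div_le_one (by positivity)]
          have : (0 : ℝ) ≤ n := Nat.cast_nonneg n
          linarith
        calc 1 / ((n : ℝ) + 1) * t n ≤ 1 / ((n : ℝ) + 1) * 1 := by
              apply mul_le_mul_of_nonneg_left ha (hη n).le
          _ = _ := mul_one _
      rw [Metric.tendsto_atTop] at h12 ⊢
      intro e he
      obtain ⟨N, hN⟩ := h12 (e ^ 3) (by positivity)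
      refine ⟨N, fun n hn => ?_⟩
      have h13 := hN n hn
      have hY := h8 n
      rw [Real.dist_eq, sub_zero, abs_of_pos (by positivity)] at h13
      rw [Real.dist_eq, sub_zero, abs_of_pos hY]
      exact lt_of_pow_lt_pow_left₀ 3 he.le h13
    · exact sq_of _ fun n => by
        have hY := h8 n
        have ht0 := h1 n
        rw [abs_of_pos (by positivity), div_le_iff₀ (by positivity)]
        exact h9 n
  obtain ⟨n, hn⟩ := (hS.main hα hφ hαφ hε).exists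
  have := h11 n hn.1
  linarith [hn.2]

end Pool.Agent.N124.QD
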