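import Pool.Agent.N789.QD.KF

/-!
# Macdonald's function of imaginary order for a large argument
-/

set_option autoImplicit false

namespace Pool.Agent.N124.QD

open MeasureTheory Set Filter Topology
open scoped Real
open Pool.Agent.N275.QD Pool.Agent.N789.KF

/-- the exponential weight -/
noncomputable def ex (x u : ℝ) : ℝ := Real.exp (-(x * Real.cosh u))

lemma ex_pos (x u : ℝ) : 0 < ex x u := Real.exp_pos _

lemma int_aux {f : ℝ → ℝ} (hf : Continuous f) (C : ℝ) (h : ∀ u, 0 ≤ u → |f u| ≤ C * Real.cosh u ^ 2)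
    {x : ℝ} (hx : 0 < x) : IntegrableOn (fun u => f u * ex x u) (Ioi 0) := by
  have hb : ∀ u : ℝ, Real.cosh u ^ 2 * ex x u ≤ 8 / x ^ 2 * Real.exp (-(x / 2 * Real.cosh u)) := by
    intro u
    have h1 : ex x u = Real.exp (-(x / 2 * Real.cosh u)) * Real.exp (-(x / 2 * Real.cosh u)) := by
      unfold ex
      rw [← Real.exp_add]
      congr 1
      ring
    have h2 : Real.cosh u ^ 2 * Real.exp (-(x / 2 * Real.cosh u)) ≤ 8 / x ^ 2 := by
      have hc := Real.cosh_pos u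
      have h3 := Real.pow_div_factorial_le_exp (x / 2 * Real.cosh u) (by positivity) 2
      rw [Real.exp_neg, ← div_eq_mul_inv, div_le_div_iff₀ (Real.exp_pos _) (by positivity)]
      have h4 : (x / 2 * Real.cosh u) ^ 2 / ((2 : ℕ).factorial : ℝ) =
        Real.cosh u ^ 2 * x ^ 2 / 8 := by
        norm_num [Nat.factorial]
        ring
      rw [h4] at h3
      linarith
    rw [h1, ← mul_assoc]
    exact mul_le_mul_of_nonneg_right h2 (Real.exp_pos _).le
  have hC : 0 ≤ C := by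
    have h1 := h 0 le_rfl
    rw [Real.cosh_zero] at h1
    have := abs_nonneg (f 0)
    linarith
  refine Integrable.mono' (((integrable_exp_cosh (by positivity : 0 < x / 2)).integrableOn).const_mul
    (C * (8 / x ^ 2))) ?_ ?_
  · apply Continuous.aestronglyMeasurable
    unfold ex
    fun_prop
  · refine (ae_restrict_iff' measurableSet_Ioi).mpr (Eventually.of_forall fun u hu => ?_)
    rw [norm_mul, Real.norm_eq_abs, Real.norm_eq_abs, abs_of_pos (ex_pos x u)]
    calc |f u| * ex x u ≤ C * Real.cosh u ^ 2 * ex x u :=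
          mul_le_mul_of_nonneg_right (h u (le_of_lt hu)) (ex_pos x u).le
      _ = C * (Real.cosh u ^ 2 * ex x u) := by ring
      _ ≤ C * (8 / x ^ 2 * Real.exp (-(x / 2 * Real.cosh u))) :=
          mul_le_mul_of_nonneg_left (hb u) hC
      _ = _ := by ring

lemma pow_le_cosh (n : ℕ) {u : ℝ} (hu : 0 ≤ u) : u ^ n ≤ 2 * n.factorial * Real.cosh u := by
  have h1 := Real.pow_div_factorial_le_exp u hu n
  have h2 : (0 : ℝ) < n.factorial := by exact_mod_cast Nat.factorial_pos n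
  rw [div_le_iff₀ h2] at h1
  have h3 : Real.exp u ≤ 2 * Real.cosh u := by
    rw [Real.cosh_eq]
    have := Real.exp_pos (-u)
    linarith
  nlinarith

lemma int_pow (n : ℕ) {x : ℝ} (hx : 0 < x) : IntegrableOn (fun u => u ^ n * ex x u) (Ioi 0) := by
  apply int_aux (by fun_prop) (2 * n.factorial) _ hx
  intro u hu
  rw [abs_of_nonneg (by positivity)]
  have h1 := pow_le_cosh n hu
  have h2 := Real.one_le_cosh u
  have h3 : (0 : ℝ) ≤ 2 * n.factorial := by positivity
  refine h1.trans ?_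
  apply mul_le_mul_of_nonneg_left _ h3
  nlinarith

lemma int_pow_sinh (n : ℕ) {x : ℝ} (hx : 0 < x) :
    IntegrableOn (fun u => u ^ n * Real.sinh u * ex x u) (Ioi 0) := by
  apply int_aux (by fun_prop) (2 * n.factorial) _ hx
  intro u hu
  have h0 : 0 ≤ Real.sinh u := Real.sinh_nonneg_iff.2 hu
  rw [abs_of_nonneg (by positivity)]
  have h1 := pow_le_cosh n hu
  have h2 := (Real.sinh_lt_cosh u).le
  have h3 : (0 : ℝ) ≤ 2 * n.factorial := by positivity
  calc u ^ n * Real.sinh u ≤ (2 * n.factorial * Real.cosh u) * Real.cosh u := by gcongr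
    _ = _ := by ring

/-- integration by parts -/
lemma parts (n : ℕ) {x : ℝ} (hx : 0 < x) :
    x * ∫ u in Ioi (0 : ℝ), u ^ (n + 1) * Real.sinh u * ex x u =
      (n + 1) * ∫ u in Ioi (0 : ℝ), u ^ n * ex x u := by
  have hd : ∀ u ∈ Ioi (0 : ℝ), HasDerivAt (fun u => u ^ (n + 1) * ex x u)
      ((n + 1) * (u ^ n * ex x u) - x * (u ^ (n + 1) * Real.sinh u * ex x u)) u := by
    intro u _
    unfold ex
    have h1 : HasDerivAt (fun u : ℝ => u ^ (n + 1)) ((n + 1 : ℕ) * u ^ n) u := by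
      simpa using hasDerivAt_pow (n + 1) u
    have h2 : HasDerivAt (fun u : ℝ => Real.exp (-(x * Real.cosh u)))
      (Real.exp (-(x * Real.cosh u)) * (-(x * Real.sinh u))) u :=
      (((Real.hasDerivAt_cosh u).const_mul x).neg).exp
    refine (h1.mul h2).congr_deriv ?_
    push_cast
    ring
  have i1 := (int_pow n hx).const_mul ((n : ℝ) + 1)
  have i2 := (int_pow_sinh (n + 1) hx).const_mul x
  have i3 : IntegrableOn (fun u => ((n : ℝ) + 1) * (u ^ n * ex x u) -
      x * (u ^ (n + 1) * Real.sinh u * ex x u)) (Ioi 0) := i1.sub i2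
  have ht := tendsto_zero_of_hasDerivAt_of_integrableOn_Ioi hd i3 (int_pow (n + 1) hx)
  have h := integral_Ioi_of_hasDerivAt_of_tendsto (by
    apply Continuous.continuousWithinAt
    unfold ex
    fun_prop) hd i3 ht
  rw [integral_sub i1 i2, integral_const_mul, integral_const_mul] at h
  simp only [ne_eq, Nat.add_eq_zero_iff, one_ne_zero, and_false, not_false_eq_true, zero_pow,
    zero_mul, sub_zero] at h
  linarith

lemma Kf_zero (x : ℝ) : Kf 0 x = ∫ u in Ioi (0 : ℝ), ex x u := by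
  unfold Kf ex
  simp

lemma Kf_zero' (x : ℝ) : Kf 0 x = ∫ u in Ioi (0 : ℝ), u ^ 0 * ex x u := by
  rw [Kf_zero]
  simp

lemma Kf_zero_pos {x : ℝ} (hx : 0 < x) : 0 < Kf 0 x := by
  rw [Kf_zero']
  rw [setIntegral_pos_iff_support_of_nonneg_ae]
  · have : Function.support (fun u => u ^ 0 * ex x u) ∩ Ioi 0 = Ioi 0 := by
      apply inter_eq_right.mpr
      intro μ _
      simp [(ex_pos x μ).ne']
    rw [this]
    simp
  · exact (ae_restrict_iff' measurableSet_Ioi).mpr (Eventually.of_forall fun μ _ => by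
      simp [(ex_pos x μ).le])
  · exact int_pow 0 hx

lemma key_mono (f f' : ℝ → ℝ) (hd : ∀ v, HasDerivAt f (f' v) v) (h0 : f 0 = 0)
    (hp : ∀ v, 0 ≤ v → 0 ≤ f' v) (v : ℝ) (hv : 0 ≤ v) : 0 ≤ f v := by
  have hm : MonotoneOn f (Ici 0) := by
    apply monotoneOn_of_deriv_nonneg (convex_Ici 0)
    · exact fun y _ => (hd y).continuousAt.continuousWithinAt
    · exact fun y _ => (hd y).differentiableAt.differentiableWithinAt
    · intro y hy
      rw [interior_Ici] at hy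
      rw [(hd y).deriv]
      exact hp y (le_of_lt hy)
  have := hm (mem_Ici.2 le_rfl) (mem_Ici.2 hv) hv
  rw [h0] at this
  exact this

lemma sinh_le_mul_cosh {u : ℝ} (hu : 0 ≤ u) : 0 ≤ u * Real.cosh u - Real.sinh u := by
  refine key_mono (fun v => v * Real.cosh v - Real.sinh v) (fun v => v * Real.sinh v) ?_ ?_ ?_ u hu
  · intro v
    refine (((hasDerivAt_id v).mul (Real.hasDerivAt_cosh v)).sub (Real.hasDerivAt_sinh v)).congr_deriv ?_
    simp
  · simp
  · intro v hv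
    exact mul_nonneg hv (Real.sinh_nonneg_iff.2 hv)

lemma sinh_bound {u : ℝ} (hu : 0 ≤ u) : Real.sinh u - u ≤ u ^ 2 * Real.sinh u / 6 := by
  -- all derivatives of `u² sinh u - 6 sinh u + 6 u` are nonnegative
  have hs := Real.hasDerivAt_sinh
  have hc := Real.hasDerivAt_cosh
  have h3 : ∀ v : ℝ, 0 ≤ v → 0 ≤ v * Real.cosh v - Real.sinh v := fun v hv => sinh_le_mul_cosh hv
  have h2 : ∀ v : ℝ, 0 ≤ v → 0 ≤ 4 * v * Real.cosh v + v ^ 2 * Real.sinh v - 4 * Real.sinh v := by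
    intro v hv
    have a := h3 v hv
    have b : 0 ≤ v ^ 2 * Real.sinh v := mul_nonneg (sq_nonneg v) (Real.sinh_nonneg_iff.2 hv)
    nlinarith
  have h1 : ∀ v : ℝ, 0 ≤ v → 0 ≤ 2 * v * Real.sinh v + v ^ 2 * Real.cosh v - 6 * Real.cosh v + 6 := by
    apply key_mono _ (fun v => 4 * v * Real.cosh v + v ^ 2 * Real.sinh v - 4 * Real.sinh v)
    · intro v
      have e1 := ((hasDerivAt_id v).const_mul 2).mul (hs v)
      have e2 := (hasDerivAt_pow 2 v).mul (hc v)
      refine (((e1.add e2).sub ((hc v).const_mul 6)).add_const 6).congr_deriv ?_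
      simp
      ring
    · simp
    · exact h2
  have h0 : ∀ v : ℝ, 0 ≤ v → 0 ≤ v ^ 2 * Real.sinh v - 6 * Real.sinh v + 6 * v := by
    apply key_mono _ (fun v => 2 * v * Real.sinh v + v ^ 2 * Real.cosh v - 6 * Real.cosh v + 6)
    · intro v
      have e2 := (hasDerivAt_pow 2 v).mul (hs v)
      refine ((e2.sub ((hs v).const_mul 6)).add ((hasDerivAt_id v).const_mul 6)).congr_deriv ?_
      simp
    · simp
    · exact h1
  have := h0 u hu
  linarith

/-- the second moment -/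
lemma A2_bounds {x : ℝ} (hx : 0 < x) :
    Kf 0 x / x - Kf 0 x / (2 * x ^ 2) ≤ ∫ u in Ioi (0 : ℝ), u ^ 2 * ex x u ∧
    ∫ u in Ioi (0 : ℝ), u ^ 2 * ex x u ≤ Kf 0 x / x := by
  have p1 := parts 0 hx
  have p3 := parts 2 hx
  rw [← Kf_zero'] at p1
  simp only [zero_add, pow_one, Nat.cast_zero, one_mul] at p1
  norm_num at p3
  have i1 : IntegrableOn (fun u => u * Real.sinh u * ex x u) (Ioi 0) := by
    simpa using int_pow_sinh 1 hx
  have i2 := int_pow 2 hx
  have i3 := int_pow_sinh 3 hx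
  have hu : ∫ u in Ioi (0 : ℝ), u ^ 2 * ex x u ≤ ∫ u in Ioi (0 : ℝ), u * Real.sinh u * ex x u := by
    apply setIntegral_mono_on i2 i1 measurableSet_Ioi
    intro u hu
    have hu0 : 0 < u := hu
    have := Real.self_le_sinh_iff.2 hu0.le
    apply mul_le_mul_of_nonneg_right _ (ex_pos x u).le
    nlinarith
  have hl : ∫ u in Ioi (0 : ℝ), (u * Real.sinh u * ex x u - u ^ 2 * ex x u) ≤
      ∫ u in Ioi (0 : ℝ), u ^ 3 * Real.sinh u * ex x u / 6 := by
    apply setIntegral_mono_on (i1.sub i2) (i3.div_const 6) measurableSet_Ioi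
    intro u hu
    have hu0 : 0 < u := hu
    have h1 := sinh_bound hu0.le
    have h2 := ex_pos x u
    have h3 : u * (Real.sinh u - u) ≤ u * (u ^ 2 * Real.sinh u / 6) :=
      mul_le_mul_of_nonneg_left h1 hu0.le
    calc u * Real.sinh u * ex x u - u ^ 2 * ex x u = u * (Real.sinh u - u) * ex x u := by ring
      _ ≤ u * (u ^ 2 * Real.sinh u / 6) * ex x u := mul_le_mul_of_nonneg_right h3 h2.le
      _ = _ := by ring
  rw [integral_sub i1 i2, integral_div] at hl
  have e1 : ∫ u in Ioi (0 : ℝ), u * Real.sinh u * ex x u = Kf 0 x / x := by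
    rw [eq_div_iff hx.ne']
    linarith
  have e3 : ∫ u in Ioi (0 : ℝ), u ^ 3 * Real.sinh u * ex x u =
      3 * (∫ u in Ioi (0 : ℝ), u ^ 2 * ex x u) / x := by
    rw [eq_div_iff hx.ne']
    linarith
  rw [e1] at hl hu
  rw [e3] at hl
  refine ⟨?_, hu⟩
  have h4 : 3 * (∫ u in Ioi (0 : ℝ), u ^ 2 * ex x u) / x / 6 ≤ Kf 0 x / (2 * x ^ 2) := by
    calc 3 * (∫ u in Ioi (0 : ℝ), u ^ 2 * ex x u) / x / 6 ≤ 3 * (Kf 0 x / x) / x / 6 := by gcongr
      _ = Kf 0 x / (2 * x ^ 2) := by field_simp; ring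
  linarith

/-- the fourth moment -/
lemma A4_bound {x : ℝ} (hx : 0 < x) :
    ∫ u in Ioi (0 : ℝ), u ^ 4 * ex x u ≤ 3 * Kf 0 x / x ^ 2 := by
  have p3 := parts 2 hx
  norm_num at p3
  have i3 := int_pow_sinh 3 hx
  have i4 := int_pow 4 hx
  have hu : ∫ u in Ioi (0 : ℝ), u ^ 4 * ex x u ≤ ∫ u in Ioi (0 : ℝ), u ^ 3 * Real.sinh u * ex x u := by
    apply setIntegral_mono_on i4 i3 measurableSet_Ioi
    intro u hu
    have hu0 : 0 < u := hu
    have h1 := Real.self_le_sinh_iff.2 hu0.le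
    apply mul_le_mul_of_nonneg_right _ (ex_pos x u).le
    calc u ^ 4 = u ^ 3 * u := by ring
      _ ≤ u ^ 3 * Real.sinh u := by gcongr
  have e3 : ∫ u in Ioi (0 : ℝ), u ^ 3 * Real.sinh u * ex x u =
      3 * (∫ u in Ioi (0 : ℝ), u ^ 2 * ex x u) / x := by
    rw [eq_div_iff hx.ne']
    linarith
  rw [e3] at hu
  refine hu.trans ?_
  have h2 := (A2_bounds hx).2
  calc 3 * (∫ u in Ioi (0 : ℝ), u ^ 2 * ex x u) / x ≤ 3 * (Kf 0 x / x) / x := by gcongr
    _ = 3 * Kf 0 x / x ^ 2 := by field_simp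

lemma cos_bound (y : ℝ) : |Real.cos y - 1 + y ^ 2 / 2| ≤ y ^ 4 / 24 := by
  have h0 : ∀ y : ℝ, 0 ≤ y → |Real.cos y - 1 + y ^ 2 / 2| ≤ y ^ 4 / 24 := by
    intro y hy
    have h1 := Real.one_sub_sq_div_two_le_cos (x := y)
    rw [abs_of_nonneg (by linarith)]
    have h2 : Real.cos y = 1 - 2 * Real.sin (y / 2) ^ 2 := by
      have := Real.cos_two_mul' (y / 2)
      rw [show 2 * (y / 2) = y by ring, Real.cos_sq'] at this
      linarith
    have h3 := Real.sin_ge_sub_cube (x := y / 2) (by linarith)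
    have h4 := Real.sin_le (x := y / 2) (by linarith)
    have h5 : (y / 2 - Real.sin (y / 2)) * (y / 2 + Real.sin (y / 2)) ≤ (y / 2) ^ 3 / 6 * y := by
      rcases le_or_gt 0 (y / 2 + Real.sin (y / 2)) with h6 | h6
      · apply mul_le_mul _ _ h6 (by positivity)
        · linarith
        · linarith
      · have : (y / 2 - Real.sin (y / 2)) * (y / 2 + Real.sin (y / 2)) ≤ 0 :=
          mul_nonpos_of_nonneg_of_nonpos (by linarith) h6.le
        have : 0 ≤ (y / 2) ^ 3 / 6 * y := by positivity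
        linarith
    rw [h2]
    nlinarith
  rcases le_total 0 y with h | h
  · exact h0 y h
  · have := h0 (-y) (by linarith)
    rw [Real.cos_neg, neg_sq, show (-y) ^ 4 = y ^ 4 by ring] at this
    exact this

lemma int_cos (μ : ℝ) {x : ℝ} (hx : 0 < x) :
    IntegrableOn (fun u => Real.cos (μ * u) * ex x u) (Ioi 0) := by
  apply int_aux (by fun_prop) 1 _ hx
  intro u _
  have h2 := Real.one_le_cosh u
  have := Real.abs_cos_le_one (μ * u)
  nlinarith

lemma Kf_eq (μ x : ℝ) : Kf μ x = ∫ u in Ioi (0 : ℝ), Real.cos (μ * u) * ex x u := by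
  unfold Kf ex
  simp only [mul_comm]

lemma abs_Kf_le (μ : ℝ) {x : ℝ} (hx : 0 < x) : |Kf μ x| ≤ Kf 0 x := by
  rw [Kf_eq, Kf_zero']
  rw [← Real.norm_eq_abs]
  refine (norm_integral_le_integral_norm _).trans ?_
  apply setIntegral_mono_on (int_cos μ hx).norm (int_pow 0 hx) measurableSet_Ioi
  intro u _
  rw [norm_mul, Real.norm_eq_abs, Real.norm_eq_abs, abs_of_pos (ex_pos x u), pow_zero]
  exact mul_le_mul_of_nonneg_right (Real.abs_cos_le_one _) (ex_pos x u).le

/-- the expansion for a large argument -/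
lemma Kf_expand (μ : ℝ) {x : ℝ} (hx : 0 < x) :
    |Kf μ x - (1 - μ ^ 2 / (2 * x)) * Kf 0 x| ≤ (μ ^ 2 + μ ^ 4) / x ^ 2 * Kf 0 x := by
  obtain ⟨A2, hA2⟩ : ∃ A2 : ℝ, A2 = ∫ u in Ioi (0 : ℝ), u ^ 2 * ex x u := ⟨_, rfl⟩
  obtain ⟨A4, hA4⟩ : ∃ A4 : ℝ, A4 = ∫ u in Ioi (0 : ℝ), u ^ 4 * ex x u := ⟨_, rfl⟩
  have hb := A2_bounds hx
  have hb4 := A4_bound hx
  rw [← hA2] at hb
  rw [← hA4] at hb4
  have hK := Kf_zero_pos hx
  have h1 : |Kf μ x - (Kf 0 x - μ ^ 2 / 2 * A2)| ≤ μ ^ 4 / 24 * A4 := by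
    have i0 := int_pow 0 hx
    have i2 := (int_pow 2 hx).const_mul (μ ^ 2 / 2)
    have i4 := (int_pow 4 hx).const_mul (μ ^ 4 / 24)
    have e : Kf μ x - (Kf 0 x - μ ^ 2 / 2 * A2) = ∫ u in Ioi (0 : ℝ),
        (Real.cos (μ * u) * ex x u - (u ^ 0 * ex x u - μ ^ 2 / 2 * (u ^ 2 * ex x u))) := by
      have i02 : IntegrableOn (fun u => u ^ 0 * ex x u - μ ^ 2 / 2 * (u ^ 2 * ex x u)) (Ioi 0) :=
        i0.sub i2
      rw [integral_sub (int_cos μ hx) i02, integral_sub i0 i2, integral_const_mul, ← hA2, ← Kf_eq,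
        ← Kf_zero']
    rw [e, ← Real.norm_eq_abs]
    refine (norm_integral_le_integral_norm _).trans ?_
    rw [hA4, ← integral_const_mul]
    apply setIntegral_mono_on _ i4 measurableSet_Ioi
    · intro u _
      have h2 := cos_bound (μ * u)
      have h3 := ex_pos x u
      rw [Real.norm_eq_abs]
      have e2 : Real.cos (μ * u) * ex x u - (u ^ 0 * ex x u - μ ^ 2 / 2 * (u ^ 2 * ex x u)) =
        (Real.cos (μ * u) - 1 + (μ * u) ^ 2 / 2) * ex x u := by ring
      rw [e2, abs_mul, abs_of_pos h3]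
      calc _ ≤ (μ * u) ^ 4 / 24 * ex x u := mul_le_mul_of_nonneg_right h2 h3.le
        _ = _ := by ring
    · exact ((int_cos μ hx).sub (i0.sub i2)).norm
  have h2 : |(Kf 0 x - μ ^ 2 / 2 * A2) - (1 - μ ^ 2 / (2 * x)) * Kf 0 x| ≤
      μ ^ 2 / 2 * (Kf 0 x / (2 * x ^ 2)) := by
    have e : (Kf 0 x - μ ^ 2 / 2 * A2) - (1 - μ ^ 2 / (2 * x)) * Kf 0 x =
        μ ^ 2 / 2 * (Kf 0 x / x - A2) := by
      field_simp
      ring
    rw [e, abs_mul, abs_of_nonneg (by positivity : 0 ≤ μ ^ 2 / 2)]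
    apply mul_le_mul_of_nonneg_left _ (by positivity)
    rw [abs_le]
    have : 0 < Kf 0 x / (2 * x ^ 2) := by positivity
    constructor <;> linarith [hb.1, hb.2]
  have h3 : μ ^ 4 / 24 * A4 ≤ μ ^ 4 / 24 * (3 * Kf 0 x / x ^ 2) :=
    mul_le_mul_of_nonneg_left hb4 (by positivity)
  have e : Kf μ x - (1 - μ ^ 2 / (2 * x)) * Kf 0 x = (Kf μ x - (Kf 0 x - μ ^ 2 / 2 * A2)) +
      ((Kf 0 x - μ ^ 2 / 2 * A2) - (1 - μ ^ 2 / (2 * x)) * Kf 0 x) := by ring
  rw [e]
  refine (abs_add_le _ _).trans ?_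
  have h4 : μ ^ 4 / 24 * (3 * Kf 0 x / x ^ 2) + μ ^ 2 / 2 * (Kf 0 x / (2 * x ^ 2)) =
      (μ ^ 2 / 4 + μ ^ 4 / 8) / x ^ 2 * Kf 0 x := by
    field_simp
    ring
  have h5 : (μ ^ 2 / 4 + μ ^ 4 / 8) / x ^ 2 * Kf 0 x ≤ (μ ^ 2 + μ ^ 4) / x ^ 2 * Kf 0 x := by
    have := sq_nonneg μ
    have : 0 ≤ μ ^ 4 := by positivity
    gcongr <;> linarith
  linarith

/-- the normalised function -/
noncomputable def kap (x : ℝ) : ℝ := Real.exp x * √x * Kf 0 x

lemma kap_nonneg {x : ℝ} (hx : 0 < x) : 0 ≤ kap x := by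
  have := Kf_zero_pos hx
  unfold kap
  positivity

lemma kap_le {x : ℝ} (hx : 0 < x) : kap x ≤ √(π / 2) := by
  have h := part1_abs (μ := 0) hx le_rfl (by positivity)
  simp only [abs_zero, mul_zero, neg_zero, Real.exp_zero, Real.cos_zero, mul_one, one_mul] at h
  have h1 := (le_abs_self _).trans h
  have h2 : √(π / (2 * x)) = √(π / 2) / √x := by
    rw [← Real.sqrt_div (by positivity)]
    congr 1
    field_simp
  rw [h2] at h1
  have h3 : 0 < √x := Real.sqrt_pos.2 hx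
  unfold kap
  calc Real.exp x * √x * Kf 0 x ≤ Real.exp x * √x * (Real.exp (-x) * (√(π / 2) / √x)) := by gcongr
    _ = (Real.exp x * Real.exp (-x)) * √(π / 2) := by field_simp
    _ = √(π / 2) := by rw [← Real.exp_add]; simp

lemma cosh_sub_one_le (y : ℝ) : Real.cosh y - 1 ≤ y ^ 2 / 2 * Real.cosh (y / 2) ^ 2 := by
  have h1 : Real.cosh y = 1 + 2 * Real.sinh (y / 2) ^ 2 := by
    have := Real.cosh_two_mul (y / 2)
    rw [Real.cosh_sq] at this
    rw [show 2 * (y / 2) = y by ring] at this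
    rw [this]
    ring
  have h2 : Real.sinh (y / 2) ^ 2 ≤ (y / 2) ^ 2 * Real.cosh (y / 2) ^ 2 := by
    have e1 : Real.sinh (y / 2) ^ 2 = Real.sinh |y / 2| ^ 2 := by
      rw [Real.sinh_sq, Real.sinh_sq, Real.cosh_abs]
    have e2 := sinh_le_mul_cosh (abs_nonneg (y / 2))
    have e3 : 0 ≤ Real.sinh |y / 2| := Real.sinh_nonneg_iff.2 (abs_nonneg _)
    rw [e1, ← sq_abs (y / 2), ← Real.cosh_abs (y / 2), ← mul_pow]
    exact pow_le_pow_left₀ e3 (by linarith) 2
  rw [h1]
  nlinarith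

lemma kap_tendsto : Tendsto kap atTop (𝓝 √(π / 2)) := by
  have hk : ∀ x : ℝ, 0 < x → kap x = ∫ v in Ioi (0 : ℝ), Real.exp (-(x * (Real.cosh (v / √x) - 1))) := by
    intro x hx
    have h3 : 0 < √x := Real.sqrt_pos.2 hx
    have h1 := integral_comp_mul_left_Ioi (fun u => Real.exp x * ex x u) 0 (inv_pos.2 h3)
    rw [mul_zero, inv_inv, smul_eq_mul, integral_const_mul, integral_const_mul, ← Kf_zero] at h1
    unfold kap
    rw [show Real.exp x * √x * Kf 0 x = √x * (Real.exp x * Kf 0 x) by ring, ← h1, ← integral_const_mul]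
    apply setIntegral_congr_fun measurableSet_Ioi
    intro v _
    simp only [ex]
    rw [← Real.exp_add, inv_mul_eq_div]
    congr 1
    ring
  have hg : √(π / 2) = ∫ v in Ioi (0 : ℝ), Real.exp (-(1 / 2) * v ^ 2) := by
    rw [integral_gaussian_Ioi]
    rw [show π / (1 / 2) = 2 ^ 2 * (π / 2) by ring, Real.sqrt_mul (by norm_num),
      Real.sqrt_sq (by norm_num)]
    ring
  rw [hg]
  have hev : ∀ᶠ x : ℝ in atTop, ∫ v in Ioi (0 : ℝ), Real.exp (-(x * (Real.cosh (v / √x) - 1))) = kap x := by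
    filter_upwards [eventually_gt_atTop 0] with x hx
    rw [hk x hx]
  refine Tendsto.congr' hev ?_
  have hsq : Tendsto (fun x : ℝ => √x) atTop atTop := Real.tendsto_sqrt_atTop
  apply tendsto_integral_filter_of_dominated_convergence (fun v => Real.exp (-(1 / 2) * v ^ 2))
  · filter_upwards with x
    apply Continuous.aestronglyMeasurable
    fun_prop
  · filter_upwards [eventually_gt_atTop 0] with x hx
    filter_upwards with v
    rw [Real.norm_eq_abs, abs_of_pos (Real.exp_pos _)]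
    apply Real.exp_le_exp.2
    have h1 := cosh_ge (v / √x)
    have h2 : x * ((v / √x) ^ 2 / 2) = v ^ 2 / 2 := by
      rw [div_pow, Real.sq_sqrt hx.le]
      field_simp
    have h3 : x * ((v / √x) ^ 2 / 2) ≤ x * (Real.cosh (v / √x) - 1) := by
      apply mul_le_mul_of_nonneg_left _ hx.le
      linarith
    linarith
  · exact (integrable_exp_neg_mul_sq (by norm_num)).integrableOn
  · filter_upwards with v
    have h0 : Tendsto (fun x : ℝ => v / √x) atTop (𝓝 0) := tendsto_const_nhds.div_atTop hsq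
    have h1 : Tendsto (fun x : ℝ => x * (Real.cosh (v / √x) - 1)) atTop (𝓝 (v ^ 2 / 2)) := by
      have hc : Tendsto (fun x : ℝ => v ^ 2 / 2 * Real.cosh (v / √x / 2) ^ 2) atTop (𝓝 (v ^ 2 / 2)) := by
        have hc0 : Continuous (fun w : ℝ => v ^ 2 / 2 * Real.cosh (w / 2) ^ 2) := by fun_prop
        have h5 := (hc0.tendsto 0).comp h0
        have e5 : v ^ 2 / 2 * Real.cosh (0 / 2) ^ 2 = v ^ 2 / 2 := by simp
        rw [e5] at h5
        exact h5
      refine tendsto_of_tendsto_of_tendsto_of_le_of_le' tendsto_const_nhds hc ?_ ?_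
      · filter_upwards [eventually_gt_atTop 0] with x hx
        have h1 := cosh_ge (v / √x)
        have h2 : x * ((v / √x) ^ 2 / 2) = v ^ 2 / 2 := by
          rw [div_pow, Real.sq_sqrt hx.le]
          field_simp
        have h3 : x * ((v / √x) ^ 2 / 2) ≤ x * (Real.cosh (v / √x) - 1) := by
          apply mul_le_mul_of_nonneg_left _ hx.le
          linarith
        linarith
      · filter_upwards [eventually_gt_atTop 0] with x hx
        have h1 := cosh_sub_one_le (v / √x)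
        have h2 : x * ((v / √x) ^ 2 / 2) = v ^ 2 / 2 := by
          rw [div_pow, Real.sq_sqrt hx.le]
          field_simp
        calc x * (Real.cosh (v / √x) - 1) ≤ x * ((v / √x) ^ 2 / 2 * Real.cosh (v / √x / 2) ^ 2) :=
              mul_le_mul_of_nonneg_left h1 hx.le
          _ = x * ((v / √x) ^ 2 / 2) * Real.cosh (v / √x / 2) ^ 2 := by ring
          _ = _ := by rw [h2]
    have h2 := (Real.continuous_exp.tendsto _).comp h1.neg
    have e : Real.exp (-(1 / 2) * v ^ 2) = Real.exp (-(v ^ 2 / 2)) := by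
      congr 1; ring
    rw [e]
    exact h2

end Pool.Agent.N124.QD
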