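import Pool.Agent.N124.QD.K0
import Pool.Agent.N670.QD.MO

/-!
# Second order expansion of the kernel in the angles
-/

set_option autoImplicit false

namespace Pool.Agent.N124.QD

open MeasureTheory Set Filter Topology
open scoped Real
open Pool.Agent.N275.QD Pool.Agent.N789.KF

/-- the integral over the spectral parameter -/
noncomputable def Qf (α φ X a a' : ℝ) : ℝ :=
  ∫ μ in Ioi (0 : ℝ), Kf μ X * Rf α μ * (Real.sinh ((φ + a) * μ) * Real.sinh ((φ + a') * μ))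

/-- moments -/
noncomputable def D2m (α φ : ℝ) : ℝ := ∫ μ in Ioi (0 : ℝ), μ ^ 2 * Rf α μ * Real.sinh (φ * μ) ^ 2

noncomputable def E2m (α φ : ℝ) : ℝ := ∫ μ in Ioi (0 : ℝ), μ ^ 2 * Rf α μ * Real.cosh (2 * φ * μ)

lemma cosh_sub_one_le' (y : ℝ) : Real.cosh y - 1 ≤ y ^ 2 / 2 * Real.cosh y := by
  have h1 := cosh_sub_one_le y
  have h2 : Real.cosh (y / 2) ^ 2 ≤ Real.cosh y := by
    have := Real.cosh_two_mul (y / 2)
    rw [Real.sinh_sq, show 2 * (y / 2) = y by ring] at this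
    have := Real.one_le_cosh (y / 2)
    nlinarith
  have := mul_le_mul_of_nonneg_left h2 (by positivity : 0 ≤ y ^ 2 / 2)
  linarith

lemma cosh_fourth (y : ℝ) : 0 ≤ Real.cosh y - 1 - y ^ 2 / 2 ∧
    Real.cosh y - 1 - y ^ 2 / 2 ≤ y ^ 4 / 24 * Real.cosh y := by
  have key : ∀ y : ℝ, 0 ≤ y → Real.cosh y - 1 - y ^ 2 / 2 ≤ y ^ 4 / 24 * Real.cosh y := by
    intro y hy
    obtain ⟨z, hz⟩ : ∃ z : ℝ, z = y / 2 := ⟨_, rfl⟩
    have hz0 : 0 ≤ z := by rw [hz]; positivity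
    have h1 : Real.cosh y = 1 + 2 * Real.sinh z ^ 2 := by
      have := Real.cosh_two_mul (y / 2)
      rw [Real.cosh_sq] at this
      rw [show 2 * (y / 2) = y by ring] at this
      rw [this, hz]
      ring
    have h2 := sinh_bound hz0
    have h3 := sinh_le_mul_cosh hz0
    have h4 := Real.self_le_sinh_iff.2 hz0
    have h5 := Real.one_le_cosh z
    have h6 : Real.sinh z - z ≤ z ^ 3 * Real.cosh z / 6 := by
      have : z ^ 2 * Real.sinh z ≤ z ^ 2 * (z * Real.cosh z) := by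
        apply mul_le_mul_of_nonneg_left _ (sq_nonneg z)
        linarith
      nlinarith
    have h7 : Real.sinh z + z ≤ 2 * z * Real.cosh z := by nlinarith
    have h8 : (Real.sinh z - z) * (Real.sinh z + z) ≤
        (z ^ 3 * Real.cosh z / 6) * (2 * z * Real.cosh z) := by
      apply mul_le_mul h6 h7 (by linarith) (by positivity)
    have h9 : Real.cosh y = 2 * Real.cosh z ^ 2 - 1 := by
      rw [h1, Real.cosh_sq]; ring
    have h10 : Real.cosh z ^ 2 ≤ Real.cosh y := by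
      rw [h9]; nlinarith
    have h11 : Real.cosh y - 1 - y ^ 2 / 2 = 2 * ((Real.sinh z - z) * (Real.sinh z + z)) := by
      rw [h1, show y = 2 * z by rw [hz]; ring]; ring
    rw [h11]
    have h12 : y ^ 4 / 24 = 2 / 3 * z ^ 4 := by rw [hz]; ring
    rw [h12]
    calc 2 * ((Real.sinh z - z) * (Real.sinh z + z)) ≤
        2 * ((z ^ 3 * Real.cosh z / 6) * (2 * z * Real.cosh z)) := by linarith
      _ = 2 / 3 * z ^ 4 * Real.cosh z ^ 2 := by ring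
      _ ≤ 2 / 3 * z ^ 4 * Real.cosh y := mul_le_mul_of_nonneg_left h10 (by positivity)
  refine ⟨by have := cosh_ge y; linarith, ?_⟩
  rcases le_total 0 y with h | h
  · exact key y h
  · have := key (-y) (by linarith)
    rw [Real.cosh_neg, neg_sq, show (-y) ^ 4 = y ^ 4 by ring] at this
    exact this

lemma sinh_sym (p b b' : ℝ) :
    Real.sinh (p + b) * Real.sinh (p + b') + Real.sinh (p - b) * Real.sinh (p - b') =
      Real.cosh (2 * p) * Real.cosh (b + b') - Real.cosh (b - b') := by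
  rw [Real.sinh_add, Real.sinh_add, Real.sinh_sub, Real.sinh_sub, Real.cosh_two_mul,
    Real.cosh_add, Real.cosh_sub]
  have h := Real.cosh_sq_sub_sinh_sq p
  linear_combination (Real.sinh b * Real.sinh b' - Real.cosh b * Real.cosh b') * h

lemma int_dom {α ψ : ℝ} (hα : 0 < α) (hψ : 0 ≤ ψ) (h : ψ + α < π / 2) {f : ℝ → ℝ}
    (hf : ContinuousOn f (Ioi 0)) (C : ℝ) (k : ℕ)
    (hb : ∀ μ, 0 < μ → |f μ| ≤ C * (μ ^ k * Rf α μ * Real.cosh (ψ * μ) ^ 2)) :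
    IntegrableOn f (Ioi 0) := by
  refine Integrable.mono' ((Pool.Agent.N670.QD.int_main k α ψ hα hψ h).const_mul C)
    (hf.aestronglyMeasurable measurableSet_Ioi) ?_
  refine (ae_restrict_iff' measurableSet_Ioi).mpr (Eventually.of_forall fun μ hμ => ?_)
  rw [Real.norm_eq_abs]
  exact hb μ hμ

lemma Kf_cont {X : ℝ} (hX : 0 < X) : Continuous (fun μ => Kf μ X) := by
  have h := part4
  rw [← continuousOn_univ]
  have : ContinuousOn (fun μ : ℝ => ((μ, X) : ℝ × ℝ)) univ := by fun_prop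
  exact h.comp this (fun μ _ => ⟨mem_univ _, hX⟩)

lemma abs_sinh_le_cosh (u : ℝ) : |Real.sinh u| ≤ Real.cosh u := by
  have h := Real.cosh_sq_sub_sinh_sq u
  apply abs_le_of_sq_le_sq (by linarith) (Real.cosh_pos u).le

lemma int_Qf {α φ δ X a a' : ℝ} (hα : 0 < α) (hφ : 0 < φ) (hδ : 0 < δ) (h : φ + δ + α < π / 2)
    (hX : 0 < X) (ha : |a| ≤ δ) (ha' : |a'| ≤ δ) :
    IntegrableOn (fun μ => Kf μ X * Rf α μ * (Real.sinh ((φ + a) * μ) * Real.sinh ((φ + a') * μ)))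
      (Ioi 0) := by
  refine int_dom hα (by linarith : 0 ≤ φ + δ) h ?_ (Kf 0 X) 0 ?_
  · exact ((Kf_cont hX).continuousOn.mul (Pool.Agent.N670.QD.Rf_cont α (by linarith))).mul
      (by fun_prop)
  · intro μ hμ
    have h1 := Pool.Agent.N670.QD.Rf_pos α μ hα (by linarith) hμ
    have h2 : ∀ b : ℝ, |b| ≤ δ → |Real.sinh ((φ + b) * μ)| ≤ Real.cosh ((φ + δ) * μ) := by
      intro b hb
      refine (abs_sinh_le_cosh _).trans ?_
      rw [Real.cosh_le_cosh, abs_mul, abs_mul]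
      apply mul_le_mul_of_nonneg_right _ (abs_nonneg _)
      rw [abs_of_pos (by linarith : 0 < φ + δ)]
      refine (abs_add_le _ _).trans ?_
      rw [abs_of_pos hφ]
      linarith
    rw [abs_mul, abs_mul, abs_mul, abs_of_pos h1, pow_zero, one_mul]
    have hc := Real.cosh_pos ((φ + δ) * μ)
    calc |Kf μ X| * Rf α μ * (|Real.sinh ((φ + a) * μ)| * |Real.sinh ((φ + a') * μ)|) ≤
        Kf 0 X * Rf α μ * (Real.cosh ((φ + δ) * μ) * Real.cosh ((φ + δ) * μ)) := by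
          have := Kf_zero_pos hX
          gcongr
          · exact abs_Kf_le μ hX
          · exact h2 a ha
          · exact h2 a' ha'
      _ = _ := by ring

/-- crude bound -/
lemma Qf_abs_le {α φ δ : ℝ} (hα : 0 < α) (hφ : 0 < φ) (hδ : 0 < δ) (h : φ + δ + α < π / 2) :
    ∃ C : ℝ, 0 ≤ C ∧ ∀ X a a' : ℝ, 0 < X → |a| ≤ δ → |a'| ≤ δ → |Qf α φ X a a'| ≤ C * Kf 0 X := by
  refine ⟨∫ μ in Ioi (0 : ℝ), μ ^ 0 * Rf α μ * Real.cosh ((φ + δ) * μ) ^ 2, ?_, ?_⟩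
  · apply setIntegral_nonneg measurableSet_Ioi
    intro μ hμ
    have h1 := Pool.Agent.N670.QD.Rf_pos α μ hα (by linarith) hμ
    positivity
  · intro X a a' hX ha ha'
    unfold Qf
    rw [← Real.norm_eq_abs]
    refine (norm_integral_le_integral_norm _).trans ?_
    rw [mul_comm, ← integral_const_mul]
    apply setIntegral_mono_on (int_Qf hα hφ hδ h hX ha ha').norm
      ((Pool.Agent.N670.QD.int_main 0 α (φ + δ) hα (by linarith) h).const_mul _) measurableSet_Ioi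
    intro μ hμ
    have h1 := Pool.Agent.N670.QD.Rf_pos α μ hα (by linarith) hμ
    have h2 : ∀ b : ℝ, |b| ≤ δ → |Real.sinh ((φ + b) * μ)| ≤ Real.cosh ((φ + δ) * μ) := by
      intro b hb
      refine (abs_sinh_le_cosh _).trans ?_
      rw [Real.cosh_le_cosh, abs_mul, abs_mul]
      apply mul_le_mul_of_nonneg_right _ (abs_nonneg _)
      rw [abs_of_pos (by linarith : 0 < φ + δ)]
      refine (abs_add_le _ _).trans ?_
      rw [abs_of_pos hφ]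
      linarith
    rw [Real.norm_eq_abs, abs_mul, abs_mul, abs_mul, abs_of_pos h1, pow_zero, one_mul]
    have hc := Real.cosh_pos ((φ + δ) * μ)
    calc |Kf μ X| * Rf α μ * (|Real.sinh ((φ + a) * μ)| * |Real.sinh ((φ + a') * μ)|) ≤
        Kf 0 X * Rf α μ * (Real.cosh ((φ + δ) * μ) * Real.cosh ((φ + δ) * μ)) := by
          have := Kf_zero_pos hX
          gcongr
          · exact abs_Kf_le μ hX
          · exact h2 a ha
          · exact h2 a' ha'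
      _ = _ := by ring

/-- the pointwise estimate -/
lemma point_bound {X μ p A B cδ k k0 : ℝ} (hX : 0 < X) (hk0 : 0 < k0)
    (hk : |k - (1 - μ ^ 2 / (2 * X)) * k0| ≤ (μ ^ 2 + μ ^ 4) / X ^ 2 * k0)
    (hA : Real.cosh (A * μ) ≤ cδ) (hB : Real.cosh (B * μ) ≤ cδ) :
    |k * ((Real.cosh (2 * p) * Real.cosh (A * μ) - Real.cosh (B * μ)) / 2) -
      k0 * (Real.sinh p ^ 2 * (1 - μ ^ 2 / (2 * X)) +
        μ ^ 2 * (A ^ 2 * Real.cosh (2 * p) - B ^ 2) / 4)| ≤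
    k0 * (Real.cosh (2 * p) * cδ) * (μ ^ 2 + μ ^ 4) *
      (1 / X ^ 2 + (A ^ 4 + B ^ 4) + (A ^ 2 + B ^ 2) / X) := by
  obtain ⟨c2, hc2⟩ : ∃ c2, c2 = Real.cosh (2 * p) := ⟨_, rfl⟩
  obtain ⟨cA, hcA⟩ : ∃ c, c = Real.cosh (A * μ) := ⟨_, rfl⟩
  obtain ⟨cB, hcB⟩ : ∃ c, c = Real.cosh (B * μ) := ⟨_, rfl⟩
  have hs : Real.sinh p ^ 2 = (c2 - 1) / 2 := by
    rw [hc2, Real.cosh_two_mul, Real.cosh_sq]; ring
  have h21 : 1 ≤ c2 := by rw [hc2]; exact Real.one_le_cosh _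
  have hA1 : 1 ≤ cA := by rw [hcA]; exact Real.one_le_cosh _
  have hB1 : 1 ≤ cB := by rw [hcB]; exact Real.one_le_cosh _
  rw [← hcA] at hA
  rw [← hcB] at hB
  rw [hs, ← hc2, ← hcA, ← hcB]
  have hδ1 : 1 ≤ cδ := hA1.trans hA
  have a1 : cA - 1 ≤ (A * μ) ^ 2 / 2 * cδ := by
    rw [hcA]
    refine (cosh_sub_one_le' _).trans ?_
    rw [← hcA]
    gcongr
  have b1 : cB - 1 ≤ (B * μ) ^ 2 / 2 * cδ := by
    rw [hcB]
    refine (cosh_sub_one_le' _).trans ?_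
    rw [← hcB]
    gcongr
  have a2 := cosh_fourth (A * μ)
  have b2 := cosh_fourth (B * μ)
  rw [← hcA] at a2
  rw [← hcB] at b2
  have a3 : cA - 1 - (A * μ) ^ 2 / 2 ≤ (A * μ) ^ 4 / 24 * cδ := a2.2.trans (by gcongr)
  have b3 : cB - 1 - (B * μ) ^ 2 / 2 ≤ (B * μ) ^ 4 / 24 * cδ := b2.2.trans (by gcongr)
  obtain ⟨T, hT⟩ : ∃ T, T = (c2 * cA - cB) / 2 := ⟨_, rfl⟩
  have e : k * ((c2 * cA - cB) / 2) - k0 * ((c2 - 1) / 2 * (1 - μ ^ 2 / (2 * X)) +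
      μ ^ 2 * (A ^ 2 * c2 - B ^ 2) / 4) =
      (k - (1 - μ ^ 2 / (2 * X)) * k0) * T + k0 * ((c2 * (cA - 1 - (A * μ) ^ 2 / 2) -
        (cB - 1 - (B * μ) ^ 2 / 2)) / 2 - μ ^ 2 / (2 * X) * ((c2 * (cA - 1) - (cB - 1)) / 2)) := by
    rw [hT]; ring
  rw [e]
  have hcc : cδ ≤ c2 * cδ := by
    have := mul_le_mul_of_nonneg_right h21 (by linarith : 0 ≤ cδ)
    linarith
  have t1 : |T| ≤ c2 * cδ := by
    have u1 : c2 * cA ≤ c2 * cδ := mul_le_mul_of_nonneg_left hA (by linarith)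
    have u2 : 0 ≤ c2 * cA := mul_nonneg (by linarith) (by linarith)
    rw [hT, abs_le]
    constructor <;> linarith
  have t2 : |(c2 * (cA - 1 - (A * μ) ^ 2 / 2) - (cB - 1 - (B * μ) ^ 2 / 2)) / 2| ≤
      c2 * cδ * (μ ^ 4 * (A ^ 4 + B ^ 4)) := by
    have u1 : c2 * (cA - 1 - (A * μ) ^ 2 / 2) ≤ c2 * ((A * μ) ^ 4 / 24 * cδ) := by gcongr
    have u2 : 0 ≤ c2 * (cA - 1 - (A * μ) ^ 2 / 2) := mul_nonneg (by linarith) a2.1
    have u3 : cB - 1 - (B * μ) ^ 2 / 2 ≤ c2 * ((B * μ) ^ 4 / 24 * cδ) := by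
      refine b3.trans ?_
      have h9 : 0 ≤ (B * μ) ^ 4 / 24 * cδ := by positivity
      have := mul_le_mul_of_nonneg_right h21 h9
      linarith
    have u4 := b2.1
    have u5 : 0 ≤ c2 * cδ * (μ ^ 4 * (A ^ 4 + B ^ 4)) := by positivity
    have u6 : c2 * ((A * μ) ^ 4 / 24 * cδ) + c2 * ((B * μ) ^ 4 / 24 * cδ) =
      c2 * cδ * (μ ^ 4 * (A ^ 4 + B ^ 4)) / 24 := by ring
    rw [abs_le]
    constructor <;> linarith
  have t3 : |(c2 * (cA - 1) - (cB - 1)) / 2| ≤ c2 * cδ * (μ ^ 2 * (A ^ 2 + B ^ 2)) := by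
    have u1 : c2 * (cA - 1) ≤ c2 * ((A * μ) ^ 2 / 2 * cδ) := by gcongr
    have u2 : 0 ≤ c2 * (cA - 1) := mul_nonneg (by linarith) (by linarith)
    have u3 : cB - 1 ≤ c2 * ((B * μ) ^ 2 / 2 * cδ) := by
      refine b1.trans ?_
      have h9 : 0 ≤ (B * μ) ^ 2 / 2 * cδ := by positivity
      have := mul_le_mul_of_nonneg_right h21 h9
      linarith
    have u5 : 0 ≤ c2 * cδ * (μ ^ 2 * (A ^ 2 + B ^ 2)) := by positivity
    have u6 : c2 * ((A * μ) ^ 2 / 2 * cδ) + c2 * ((B * μ) ^ 2 / 2 * cδ) =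
      c2 * cδ * (μ ^ 2 * (A ^ 2 + B ^ 2)) / 2 := by ring
    rw [abs_le]
    constructor <;> linarith
  have hm : 0 ≤ μ ^ 2 / (2 * X) := by positivity
  have hc0 : 0 ≤ c2 * cδ := by positivity
  calc |(k - (1 - μ ^ 2 / (2 * X)) * k0) * T + k0 * ((c2 * (cA - 1 - (A * μ) ^ 2 / 2) -
        (cB - 1 - (B * μ) ^ 2 / 2)) / 2 - μ ^ 2 / (2 * X) * ((c2 * (cA - 1) - (cB - 1)) / 2))|
      ≤ |k - (1 - μ ^ 2 / (2 * X)) * k0| * |T| + k0 * (|(c2 * (cA - 1 - (A * μ) ^ 2 / 2) -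
        (cB - 1 - (B * μ) ^ 2 / 2)) / 2| + μ ^ 2 / (2 * X) * |(c2 * (cA - 1) - (cB - 1)) / 2|) := by
        refine (abs_add_le _ _).trans ?_
        rw [abs_mul, abs_mul, abs_of_pos hk0]
        gcongr
        refine (abs_sub _ _).trans ?_
        rw [abs_mul, abs_of_nonneg hm]
    _ ≤ ((μ ^ 2 + μ ^ 4) / X ^ 2 * k0) * (c2 * cδ) + k0 * (c2 * cδ * (μ ^ 4 * (A ^ 4 + B ^ 4)) +
        μ ^ 2 / (2 * X) * (c2 * cδ * (μ ^ 2 * (A ^ 2 + B ^ 2)))) := by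
        gcongr
    _ = k0 * (c2 * cδ) * ((μ ^ 2 + μ ^ 4) * (1 / X ^ 2) + μ ^ 4 * (A ^ 4 + B ^ 4) +
        μ ^ 4 / 2 * ((A ^ 2 + B ^ 2) / X)) := by
        field_simp
        ring
    _ ≤ k0 * (c2 * cδ) * ((μ ^ 2 + μ ^ 4) * (1 / X ^ 2) + (μ ^ 2 + μ ^ 4) * (A ^ 4 + B ^ 4) +
        (μ ^ 2 + μ ^ 4) * ((A ^ 2 + B ^ 2) / X)) := by
        have w1 : μ ^ 4 ≤ μ ^ 2 + μ ^ 4 := by have := sq_nonneg μ; linarith
        have w2 : μ ^ 4 / 2 ≤ μ ^ 2 + μ ^ 4 := by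
          have := sq_nonneg μ
          have : 0 ≤ μ ^ 4 := by positivity
          linarith
        gcongr
    _ = _ := by ring

lemma two_cosh_sq (u : ℝ) : Real.cosh (2 * u) ≤ 2 * Real.cosh u ^ 2 := by
  rw [Real.cosh_two_mul, Real.sinh_sq]
  linarith

lemma cosh_mono {a b μ : ℝ} (hμ : 0 < μ) (ha : 0 ≤ a) (hab : a ≤ b) :
    Real.cosh (a * μ) ≤ Real.cosh (b * μ) := by
  rw [Real.cosh_le_cosh, abs_of_nonneg (by positivity), abs_of_nonneg (by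
    have : 0 ≤ b := ha.trans hab
    positivity)]
  exact mul_le_mul_of_nonneg_right hab hμ.le

/-- second order expansion of the symmetrised kernel -/
theorem kernel_exp {α φ δ : ℝ} (hα : 0 < α) (hφ : 0 < φ) (hδ : 0 < δ) (h : φ + δ + α < π / 2) :
    ∃ C : ℝ, 0 ≤ C ∧ ∀ X a a' : ℝ, 0 < X → |a| ≤ δ → |a'| ≤ δ →
      |(Qf α φ X a a' + Qf α φ X (-a) (-a')) / 2 - Kf 0 X * (Df α φ - D2m α φ / (2 * X) +
        ((a + a') ^ 2 * E2m α φ - (a - a') ^ 2 * mm 2 α) / 4)| ≤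
      C * Kf 0 X * (1 / X ^ 2 + ((a + a') ^ 4 + (a - a') ^ 4) + ((a + a') ^ 2 + (a - a') ^ 2) / X) := by
  have hψ : 0 ≤ φ + δ := by linarith
  have hαp : α < π / 2 := by linarith
  have j2 := Pool.Agent.N670.QD.int_main 2 α (φ + δ) hα hψ h
  have j4 := Pool.Agent.N670.QD.int_main 4 α (φ + δ) hα hψ h
  have hRc := Pool.Agent.N670.QD.Rf_cont α hαp
  refine ⟨2 * ∫ μ in Ioi (0 : ℝ), (μ ^ 2 * Rf α μ * Real.cosh ((φ + δ) * μ) ^ 2 +
    μ ^ 4 * Rf α μ * Real.cosh ((φ + δ) * μ) ^ 2), ?_, ?_⟩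
  · apply mul_nonneg (by norm_num)
    apply setIntegral_nonneg measurableSet_Ioi
    intro μ hμ
    have h1 := Pool.Agent.N670.QD.Rf_pos α μ hα hαp hμ
    have hμ0 : (0 : ℝ) < μ := hμ
    positivity
  intro X a a' hX ha ha'
  obtain ⟨A, hA⟩ : ∃ A, A = a + a' := ⟨_, rfl⟩
  obtain ⟨B, hB⟩ : ∃ B, B = a - a' := ⟨_, rfl⟩
  rw [← hA, ← hB]
  have hk0 := Kf_zero_pos hX
  have ic1 := int_Qf hα hφ hδ h hX ha ha'
  have ic2 := int_Qf hα hφ hδ h hX (a := -a) (a' := -a') (by rwa [abs_neg]) (by rwa [abs_neg])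
  have hle : ∀ μ : ℝ, 0 < μ → Real.cosh (φ * μ) ≤ Real.cosh ((φ + δ) * μ) := fun μ hμ =>
    cosh_mono hμ hφ.le (by linarith)
  have hss : ∀ μ : ℝ, Real.sinh (φ * μ) ^ 2 ≤ Real.cosh (φ * μ) ^ 2 := fun μ => by
    rw [Real.sinh_sq]; linarith
  have ib : IntegrableOn (fun μ => Rf α μ * Real.sinh (φ * μ) ^ 2) (Ioi 0) := by
    refine int_dom hα hψ h (hRc.mul (by fun_prop)) 1 0 ?_
    intro μ hμ
    have h1 := Pool.Agent.N670.QD.Rf_pos α μ hα hαp hμ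
    have h2 := hle μ hμ
    have h3 := Real.cosh_pos (φ * μ)
    rw [abs_of_nonneg (by positivity), pow_zero, one_mul, one_mul]
    apply mul_le_mul_of_nonneg_left _ h1.le
    exact (hss μ).trans (pow_le_pow_left₀ h3.le h2 2)
  have icc : IntegrableOn (fun μ => μ ^ 2 * Rf α μ * Real.sinh (φ * μ) ^ 2) (Ioi 0) := by
    refine int_dom hα hψ h (((by fun_prop : ContinuousOn (fun μ : ℝ => μ ^ 2) (Ioi 0)).mul hRc).mul
      (by fun_prop)) 1 2 ?_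
    intro μ hμ
    have h1 := Pool.Agent.N670.QD.Rf_pos α μ hα hαp hμ
    have h2 := hle μ hμ
    have h3 := Real.cosh_pos (φ * μ)
    rw [abs_of_nonneg (by positivity), one_mul]
    apply mul_le_mul_of_nonneg_left _ (by positivity)
    exact (hss μ).trans (pow_le_pow_left₀ h3.le h2 2)
  have id : IntegrableOn (fun μ => μ ^ 2 * Rf α μ * Real.cosh (2 * φ * μ)) (Ioi 0) := by
    refine int_dom hα hψ h (((by fun_prop : ContinuousOn (fun μ : ℝ => μ ^ 2) (Ioi 0)).mul hRc).mul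
      (by fun_prop)) 2 2 ?_
    intro μ hμ
    have h1 := Pool.Agent.N670.QD.Rf_pos α μ hα hαp hμ
    have h2 := hle μ hμ
    have h3 := Real.cosh_pos (φ * μ)
    have h4 := two_cosh_sq (φ * μ)
    have h5 := Real.cosh_pos (2 * φ * μ)
    rw [abs_of_nonneg (by positivity)]
    have h6 : Real.cosh (2 * φ * μ) ≤ 2 * Real.cosh ((φ + δ) * μ) ^ 2 := by
      rw [show 2 * φ * μ = 2 * (φ * μ) by ring]
      refine h4.trans ?_
      gcongr
    calc μ ^ 2 * Rf α μ * Real.cosh (2 * φ * μ) ≤ μ ^ 2 * Rf α μ * (2 * Real.cosh ((φ + δ) * μ) ^ 2) := by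
          gcongr
      _ = _ := by ring
  have ie := Pool.Agent.N670.QD.int_mm 2 α hα hαp
  -- the second integral
  have e2 : Kf 0 X * (Df α φ - D2m α φ / (2 * X) + (A ^ 2 * E2m α φ - B ^ 2 * mm 2 α) / 4) =
      ∫ μ in Ioi (0 : ℝ), Kf 0 X * ((Rf α μ * Real.sinh (φ * μ) ^ 2 -
        1 / (2 * X) * (μ ^ 2 * Rf α μ * Real.sinh (φ * μ) ^ 2)) +
        (A ^ 2 / 4 * (μ ^ 2 * Rf α μ * Real.cosh (2 * φ * μ)) - B ^ 2 / 4 * (μ ^ 2 * Rf α μ))) := by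
    have k1 := icc.const_mul (1 / (2 * X))
    have k2 := id.const_mul (A ^ 2 / 4)
    have k3 := ie.const_mul (B ^ 2 / 4)
    have k4 : IntegrableOn (fun μ => Rf α μ * Real.sinh (φ * μ) ^ 2 -
        1 / (2 * X) * (μ ^ 2 * Rf α μ * Real.sinh (φ * μ) ^ 2)) (Ioi 0) := ib.sub k1
    have k5 : IntegrableOn (fun μ => A ^ 2 / 4 * (μ ^ 2 * Rf α μ * Real.cosh (2 * φ * μ)) -
      B ^ 2 / 4 * (μ ^ 2 * Rf α μ)) (Ioi 0) := k2.sub k3
    rw [integral_const_mul, integral_add k4 k5, integral_sub ib k1, integral_sub k2 k3,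
      integral_const_mul, integral_const_mul, integral_const_mul]
    unfold Df D2m E2m mm
    ring
  have k4 : IntegrableOn (fun μ => Kf 0 X * ((Rf α μ * Real.sinh (φ * μ) ^ 2 -
        1 / (2 * X) * (μ ^ 2 * Rf α μ * Real.sinh (φ * μ) ^ 2)) +
        (A ^ 2 / 4 * (μ ^ 2 * Rf α μ * Real.cosh (2 * φ * μ)) - B ^ 2 / 4 * (μ ^ 2 * Rf α μ)))) (Ioi 0) :=
    ((ib.sub (icc.const_mul (1 / (2 * X)))).add
      ((id.const_mul (A ^ 2 / 4)).sub (ie.const_mul (B ^ 2 / 4)))).const_mul (Kf 0 X)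
  have e1 : (Qf α φ X a a' + Qf α φ X (-a) (-a')) / 2 = ∫ μ in Ioi (0 : ℝ),
      (Kf μ X * Rf α μ * (Real.sinh ((φ + a) * μ) * Real.sinh ((φ + a') * μ)) +
       Kf μ X * Rf α μ * (Real.sinh ((φ + -a) * μ) * Real.sinh ((φ + -a') * μ))) / 2 := by
    rw [integral_div, integral_add ic1 ic2]
    rfl
  have k5 : IntegrableOn (fun μ => (Kf μ X * Rf α μ * (Real.sinh ((φ + a) * μ) * Real.sinh ((φ + a') * μ)) +
       Kf μ X * Rf α μ * (Real.sinh ((φ + -a) * μ) * Real.sinh ((φ + -a') * μ))) / 2) (Ioi 0) :=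
    (ic1.add ic2).div_const 2
  rw [e1, e2, ← integral_sub k5 k4, ← Real.norm_eq_abs]
  refine (norm_integral_le_integral_norm _).trans ?_
  rw [show 2 * (∫ μ in Ioi (0 : ℝ), (μ ^ 2 * Rf α μ * Real.cosh ((φ + δ) * μ) ^ 2 +
    μ ^ 4 * Rf α μ * Real.cosh ((φ + δ) * μ) ^ 2)) * Kf 0 X *
      (1 / X ^ 2 + (A ^ 4 + B ^ 4) + (A ^ 2 + B ^ 2) / X) =
    (2 * Kf 0 X * (1 / X ^ 2 + (A ^ 4 + B ^ 4) + (A ^ 2 + B ^ 2) / X)) *
    (∫ μ in Ioi (0 : ℝ), (μ ^ 2 * Rf α μ * Real.cosh ((φ + δ) * μ) ^ 2 +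
    μ ^ 4 * Rf α μ * Real.cosh ((φ + δ) * μ) ^ 2)) by ring, ← integral_const_mul]
  apply setIntegral_mono_on (k5.sub k4).norm ((j2.add j4).const_mul _) measurableSet_Ioi
  intro μ hμ
  have hμ0 : (0 : ℝ) < μ := hμ
  have hR := Pool.Agent.N670.QD.Rf_pos α μ hα hαp hμ
  have hAb : Real.cosh (A * μ) ≤ Real.cosh (2 * δ * μ) := by
    rw [Real.cosh_le_cosh, abs_mul, abs_of_pos hμ0, abs_of_pos (by positivity : 0 < 2 * δ * μ)]
    apply mul_le_mul_of_nonneg_right _ hμ0.le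
    rw [hA]
    exact (abs_add_le _ _).trans (by linarith)
  have hBb : Real.cosh (B * μ) ≤ Real.cosh (2 * δ * μ) := by
    rw [Real.cosh_le_cosh, abs_mul, abs_of_pos hμ0, abs_of_pos (by positivity : 0 < 2 * δ * μ)]
    apply mul_le_mul_of_nonneg_right _ hμ0.le
    rw [hB]
    exact (abs_sub _ _).trans (by linarith)
  have hp := point_bound (p := φ * μ) hX hk0 (Kf_expand μ hX) hAb hBb
  have hsym := sinh_sym (φ * μ) (a * μ) (a' * μ)
  have hG : Real.cosh (2 * (φ * μ)) * Real.cosh (2 * δ * μ) ≤ 2 * Real.cosh ((φ + δ) * μ) ^ 2 := by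
    have g1 := two_cosh_sq ((φ + δ) * μ)
    refine le_trans ?_ g1
    rw [show 2 * ((φ + δ) * μ) = 2 * (φ * μ) + 2 * δ * μ by ring, Real.cosh_add]
    have g2 : 0 ≤ Real.sinh (2 * (φ * μ)) := Real.sinh_nonneg_iff.2 (by positivity)
    have g3 : 0 ≤ Real.sinh (2 * δ * μ) := Real.sinh_nonneg_iff.2 (by positivity)
    nlinarith
  rw [Real.norm_eq_abs]
  simp only [Pi.sub_apply, Pi.add_apply]
  have e3 : (Kf μ X * Rf α μ * (Real.sinh ((φ + a) * μ) * Real.sinh ((φ + a') * μ)) +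
       Kf μ X * Rf α μ * (Real.sinh ((φ + -a) * μ) * Real.sinh ((φ + -a') * μ))) / 2 -
      Kf 0 X * ((Rf α μ * Real.sinh (φ * μ) ^ 2 -
        1 / (2 * X) * (μ ^ 2 * Rf α μ * Real.sinh (φ * μ) ^ 2)) +
        (A ^ 2 / 4 * (μ ^ 2 * Rf α μ * Real.cosh (2 * φ * μ)) - B ^ 2 / 4 * (μ ^ 2 * Rf α μ))) =
      Rf α μ * (Kf μ X * ((Real.cosh (2 * (φ * μ)) * Real.cosh (A * μ) - Real.cosh (B * μ)) / 2) -
      Kf 0 X * (Real.sinh (φ * μ) ^ 2 * (1 - μ ^ 2 / (2 * X)) +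
        μ ^ 2 * (A ^ 2 * Real.cosh (2 * (φ * μ)) - B ^ 2) / 4)) := by
    rw [show (φ + a) * μ = φ * μ + a * μ by ring, show (φ + a') * μ = φ * μ + a' * μ by ring,
      show (φ + -a) * μ = φ * μ - a * μ by ring, show (φ + -a') * μ = φ * μ - a' * μ by ring,
      ← mul_add, hsym, hA, hB, show a * μ + a' * μ = (a + a') * μ by ring,
      show a * μ - a' * μ = (a - a') * μ by ring, show 2 * φ * μ = 2 * (φ * μ) by ring]
    ring
  rw [e3, abs_mul, abs_of_pos hR]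
  calc Rf α μ * |Kf μ X * ((Real.cosh (2 * (φ * μ)) * Real.cosh (A * μ) - Real.cosh (B * μ)) / 2) -
      Kf 0 X * (Real.sinh (φ * μ) ^ 2 * (1 - μ ^ 2 / (2 * X)) +
        μ ^ 2 * (A ^ 2 * Real.cosh (2 * (φ * μ)) - B ^ 2) / 4)|
      ≤ Rf α μ * (Kf 0 X * (Real.cosh (2 * (φ * μ)) * Real.cosh (2 * δ * μ)) * (μ ^ 2 + μ ^ 4) *
      (1 / X ^ 2 + (A ^ 4 + B ^ 4) + (A ^ 2 + B ^ 2) / X)) := mul_le_mul_of_nonneg_left hp hR.le
    _ ≤ Rf α μ * (Kf 0 X * (2 * Real.cosh ((φ + δ) * μ) ^ 2) * (μ ^ 2 + μ ^ 4) *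
      (1 / X ^ 2 + (A ^ 4 + B ^ 4) + (A ^ 2 + B ^ 2) / X)) := by gcongr
    _ = _ := by ring

lemma E2m_eq {α φ : ℝ} (hα : 0 < α) (hφ : 0 < φ) (h : φ + α < π / 2) :
    E2m α φ = 2 * D2m α φ + mm 2 α := by
  have hαp : α < π / 2 := by linarith
  have hRc := Pool.Agent.N670.QD.Rf_cont α hαp
  have icc : IntegrableOn (fun μ => μ ^ 2 * Rf α μ * Real.sinh (φ * μ) ^ 2) (Ioi 0) := by
    refine int_dom hα hφ.le h (((by fun_prop : ContinuousOn (fun μ : ℝ => μ ^ 2) (Ioi 0)).mul hRc).mul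
      (by fun_prop)) 1 2 ?_
    intro μ hμ
    have h1 := Pool.Agent.N670.QD.Rf_pos α μ hα hαp hμ
    rw [abs_of_nonneg (by positivity), one_mul]
    apply mul_le_mul_of_nonneg_left _ (by positivity)
    rw [Real.sinh_sq]; linarith
  have ie := Pool.Agent.N670.QD.int_mm 2 α hα hαp
  unfold E2m D2m mm
  rw [← integral_const_mul, ← integral_add (icc.const_mul 2) ie]
  apply setIntegral_congr_fun measurableSet_Ioi
  intro μ _
  simp only
  rw [show 2 * φ * μ = 2 * (φ * μ) by ring, Real.cosh_two_mul, Real.cosh_sq]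
  ring

end Pool.Agent.N124.QD
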