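import Pool.Agent.N124.QD.K1

/-!
# The kernels in rescaled coordinates
-/

set_option autoImplicit false

namespace Pool.Agent.N124.QD

open MeasureTheory Set Filter Topology
open scoped Real
open Pool.Agent.N275.QD Pool.Agent.N789.KF

/-- the distance from the origin -/
noncomputable def rr (x y : ℝ) : ℝ := √(x ^ 2 + y ^ 2)

lemma rr_pos {x : ℝ} (hx : 0 < x) (y : ℝ) : 0 < rr x y := Real.sqrt_pos.2 (by positivity)

lemma rr_ge {x : ℝ} (hx : 0 < x) (y : ℝ) : x ≤ rr x y := by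
  apply Real.le_sqrt_of_sq_le
  have := sq_nonneg y
  linarith

lemma rr_sq (x y : ℝ) : rr x y ^ 2 = x ^ 2 + y ^ 2 := Real.sq_sqrt (by positivity)

lemma norm_xy (x y : ℝ) : ‖(x : ℂ) + (y : ℂ) * Complex.I‖ = rr x y := by
  rw [Complex.norm_add_mul_I]
  rfl

lemma rr_neg (x y : ℝ) : rr x (-y) = rr x y := by
  unfold rr
  rw [neg_sq]

lemma polar {x : ℝ} (hx : 0 < x) (y : ℝ) : (x : ℂ) + (y : ℂ) * Complex.I =
    (rr x y : ℂ) * (Complex.cos (Real.arctan (y / x) : ℂ) + Complex.sin (Real.arctan (y / x) : ℂ) *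
      Complex.I) := by
  rw [← Complex.ofReal_cos, ← Complex.ofReal_sin, Real.cos_arctan, Real.sin_arctan]
  have h : rr x y = x * √(1 + (y / x) ^ 2) := by
    unfold rr
    rw [show x ^ 2 + y ^ 2 = x ^ 2 * (1 + (y / x) ^ 2) by field_simp, Real.sqrt_mul (by positivity),
      Real.sqrt_sq hx.le]
  have h2 : 0 < √(1 + (y / x) ^ 2) := Real.sqrt_pos.2 (by positivity)
  have e1 : rr x y * (1 / √(1 + (y / x) ^ 2)) = x := by
    rw [h]; field_simp
  have e2 : rr x y * (y / x / √(1 + (y / x) ^ 2)) = y := by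
    rw [h]; field_simp
  rw [mul_add, ← mul_assoc, ← Complex.ofReal_mul, ← Complex.ofReal_mul, e1, e2]

lemma arg_rot {x φ : ℝ} (hx : 0 < x) (y : ℝ) (h0 : 0 < φ) (h1 : φ < π / 2) :
    Complex.arg (Complex.exp ((φ : ℂ) * Complex.I) * ((x : ℂ) + (y : ℂ) * Complex.I)) =
      φ + Real.arctan (y / x) := by
  rw [polar hx y, Complex.exp_mul_I]
  have h2 := Real.arctan_lt_pi_div_two (y / x)
  have h3 := Real.neg_pi_div_two_lt_arctan (y / x)
  generalize Real.arctan (y / x) = θ at *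
  have e : (Complex.cos (φ : ℂ) + Complex.sin (φ : ℂ) * Complex.I) * ((rr x y : ℂ) *
      (Complex.cos (θ : ℂ) + Complex.sin (θ : ℂ) * Complex.I)) =
      (rr x y : ℂ) * (Complex.cos ((φ + θ : ℝ) : ℂ) + Complex.sin ((φ + θ : ℝ) : ℂ) * Complex.I) := by
    rw [Complex.ofReal_add, Complex.cos_add, Complex.sin_add]
    linear_combination ((rr x y : ℂ) * Complex.sin (φ : ℂ) * Complex.sin (θ : ℂ)) * Complex.I_sq
  rw [e, Complex.arg_mul_cos_add_sin_mul_I (rr_pos hx y)]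
  constructor <;> linarith

lemma norm_rot (φ : ℝ) (z : ℂ) : ‖Complex.exp ((φ : ℂ) * Complex.I) * z‖ = ‖z‖ := by
  rw [norm_mul, Complex.norm_exp_ofReal_mul_I, one_mul]

/-- the normalisation -/
noncomputable def Nm (τ x x' : ℝ) : ℝ :=
  Real.exp (-((x + x') ^ 2 / (4 * τ))) / (π ^ 2 * τ) * √(2 * τ)

lemma Nm_pos {τ : ℝ} (hτ : 0 < τ) (x x' : ℝ) : 0 < Nm τ x x' := by
  unfold Nm
  positivity

/-- the normalised reference kernel -/
noncomputable def thn (τ x x' r r' : ℝ) : ℝ :=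
  Real.exp (-(((r + r') ^ 2 - (x + x') ^ 2) / (4 * τ))) * kap (r * r' / (2 * τ)) / √(r * r')

lemma pre_eq {τ r r' : ℝ} (hτ : 0 < τ) (hr : 0 < r) (hr' : 0 < r') (x x' : ℝ) :
    Real.exp (-((r ^ 2 + r' ^ 2) / (4 * τ))) / (π ^ 2 * τ) * Kf 0 (r * r' / (2 * τ)) =
      Nm τ x x' * thn τ x x' r r' := by
  unfold Nm thn kap
  have h1 : 0 < r * r' / (2 * τ) := by positivity
  have h2 : √(r * r' / (2 * τ)) = √(r * r') / √(2 * τ) := Real.sqrt_div (by positivity) _
  rw [h2]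
  have h3 : 0 < √(r * r') := Real.sqrt_pos.2 (by positivity)
  have h4 : 0 < √(2 * τ) := Real.sqrt_pos.2 (by positivity)
  have e : Real.exp (-((x + x') ^ 2 / (4 * τ))) *
      Real.exp (-(((r + r') ^ 2 - (x + x') ^ 2) / (4 * τ))) * Real.exp (r * r' / (2 * τ)) =
      Real.exp (-((r ^ 2 + r' ^ 2) / (4 * τ))) := by
    rw [← Real.exp_add, ← Real.exp_add]
    congr 1
    field_simp
    ring
  rw [← e]
  field_simp

lemma Th_eq {τ x x' : ℝ} (hτ : 0 < τ) (hx : 0 < x) (hx' : 0 < x') (y y' : ℝ) :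
    Th τ ((x : ℂ) + (y : ℂ) * Complex.I) ((x' : ℂ) + (y' : ℂ) * Complex.I) =
      Nm τ x x' * thn τ x x' (rr x y) (rr x' y') := by
  unfold Th
  rw [norm_xy, norm_xy, pre_eq hτ (rr_pos hx y) (rr_pos hx' y')]

lemma Gr_eq {α φ τ x x' : ℝ} (h0 : 0 < φ) (h1 : φ < π / 2) (hτ : 0 < τ) (hx : 0 < x) (hx' : 0 < x')
    (y y' : ℝ) :
    Gr α φ τ ((x : ℂ) + (y : ℂ) * Complex.I) ((x' : ℂ) + (y' : ℂ) * Complex.I) =
      Nm τ x x' * (thn τ x x' (rr x y) (rr x' y') *
        (Qf α φ (rr x y * rr x' y' / (2 * τ)) (Real.arctan (y / x)) (Real.arctan (y' / x')) /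
          Kf 0 (rr x y * rr x' y' / (2 * τ)))) := by
  have hr := rr_pos hx y
  have hr' := rr_pos hx' y'
  have hK := Kf_zero_pos (by positivity : 0 < rr x y * rr x' y' / (2 * τ))
  rw [← mul_assoc, ← pre_eq hτ hr hr']
  unfold Gr Gf Qf
  rw [norm_rot, norm_rot, norm_xy, norm_xy, arg_rot hx y h0 h1, arg_rot hx' y' h0 h1]
  have key : ∀ P Q K : ℝ, K ≠ 0 → P * Q = P * K * (Q / K) := by
    intro P Q K hK
    field_simp
  exact key _ _ _ hK.ne'

lemma abs_arctan_le (u : ℝ) : |Real.arctan u| ≤ |u| := by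
  have key : ∀ u : ℝ, 0 ≤ u → |Real.arctan u| ≤ |u| := by
    intro u hu
    have h1 : 0 ≤ Real.arctan u := Real.arctan_nonneg.2 hu
    rw [abs_of_nonneg h1, abs_of_nonneg hu]
    have := Real.le_tan h1 (Real.arctan_lt_pi_div_two u)
    rwa [Real.tan_arctan] at this
  rcases le_total 0 u with h | h
  · exact key u h
  · have := key (-u) (by linarith)
    rwa [Real.arctan_neg, abs_neg, abs_neg] at this

/-- the one dimensional Gaussian weight -/
noncomputable def gs (v : ℝ) : ℝ := Real.exp (-(v ^ 2 / 4)) / √(4 * π)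

lemma gs_pos (v : ℝ) : 0 < gs v := by
  unfold gs
  positivity

lemma gs_eq {σ : ℝ} (hσ : 0 < σ) (v : ℝ) : √σ * g1 σ (-(√σ * v)) = gs v := by
  unfold g1 gs
  have h1 : √(4 * π * σ) = √(4 * π) * √σ := Real.sqrt_mul (by positivity) _
  have h2 : 0 < √σ := Real.sqrt_pos.2 hσ
  have h3 : (-(√σ * v)) ^ 2 / (4 * σ) = v ^ 2 / 4 := by
    rw [neg_sq, mul_pow, Real.sq_sqrt hσ.le]
    field_simp
  rw [h1, h3]
  field_simp

open Classical in
/-- indicator of the square -/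
noncomputable def ind (t σ Y : ℝ) (p : ℝ × ℝ) : ℝ :=
  if |√t * p.1| < Y ∧ |√t * p.1 + √σ * p.2| < Y then 1 else 0

/-- the average in rescaled coordinates -/
lemma Ja_eq {t σ : ℝ} (ht : 0 < t) (hσ : 0 < σ) (Y : ℝ) (F : ℂ → ℂ → ℝ) (x x' : ℝ) :
    Ja σ Y F x x' = √t * ∫ s : ℝ, ∫ v : ℝ, ind t σ Y (s, v) * (gs v *
      F ((x : ℂ) + ((√t * s : ℝ) : ℂ) * Complex.I)
        ((x' : ℂ) + ((√t * s + √σ * v : ℝ) : ℂ) * Complex.I)) := by
  classical
  have hst : 0 < √t := Real.sqrt_pos.2 ht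
  have hss : 0 < √σ := Real.sqrt_pos.2 hσ
  unfold Ja
  have h1 : ∀ y : ℝ, ∫ y' in Ioo (-Y) Y, g1 σ (y - y') *
      F ((x : ℂ) + (y : ℂ) * Complex.I) ((x' : ℂ) + (y' : ℂ) * Complex.I) =
      ∫ v : ℝ, (if |y + √σ * v| < Y then 1 else 0) * (gs v *
        F ((x : ℂ) + (y : ℂ) * Complex.I) ((x' : ℂ) + ((y + √σ * v : ℝ) : ℂ) * Complex.I)) := by
    intro y
    rw [← integral_indicator measurableSet_Ioo]
    rw [← integral_add_left_eq_self _ y]
    have h2 := Measure.integral_comp_mul_left (fun u => (Ioo (-Y) Y).indicator (fun y' =>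
      g1 σ (y - y') * F ((x : ℂ) + (y : ℂ) * Complex.I) ((x' : ℂ) + (y' : ℂ) * Complex.I)) (y + u)) √σ
    rw [abs_of_pos (inv_pos.2 hss), smul_eq_mul, inv_mul_eq_div, eq_div_iff hss.ne'] at h2
    rw [← h2, mul_comm, ← integral_const_mul]
    congr 1
    ext v
    have hg : √σ * g1 σ (y - (y + √σ * v)) = gs v := by
      rw [show y - (y + √σ * v) = -(√σ * v) by ring]
      exact gs_eq hσ v
    by_cases hY : |y + √σ * v| < Y
    · rw [indicator_of_mem (by rw [mem_Ioo]; exact abs_lt.1 hY), if_pos hY, one_mul, ← hg]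
      ring
    · rw [indicator_of_notMem (by rw [mem_Ioo]; exact fun h => hY (abs_lt.2 h)), if_neg hY]
      ring
  rw [← integral_indicator measurableSet_Ioo]
  have h2 := Measure.integral_comp_mul_left (fun y => (Ioo (-Y) Y).indicator (fun y => ∫ y' in Ioo (-Y) Y,
    g1 σ (y - y') * F ((x : ℂ) + (y : ℂ) * Complex.I) ((x' : ℂ) + (y' : ℂ) * Complex.I)) y) √t
  rw [abs_of_pos (inv_pos.2 hst), smul_eq_mul, inv_mul_eq_div, eq_div_iff hst.ne'] at h2
  rw [← h2, mul_comm]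
  congr 1
  congr 1
  ext s
  by_cases hY : |√t * s| < Y
  · rw [indicator_of_mem (by rw [mem_Ioo]; exact abs_lt.1 hY), h1]
    congr 1
    ext v
    unfold ind
    simp only [hY, true_and]
  · rw [indicator_of_notMem (by rw [mem_Ioo]; exact fun h => hY (abs_lt.2 h))]
    unfold ind
    simp only [hY, false_and, if_false, zero_mul, integral_zero]

/-! ## Measurability -/

lemma measurable_Kf : Measurable (fun q : ℝ × ℝ => Kf q.1 q.2) := by
  unfold Kf
  apply StronglyMeasurable.measurable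
  apply StronglyMeasurable.integral_prod_right
    (f := fun (q : ℝ × ℝ) (u : ℝ) => Real.exp (-(q.2 * Real.cosh u)) * Real.cos (q.1 * u))
  apply Continuous.stronglyMeasurable
  fun_prop

lemma measurable_Qf (α φ : ℝ) : Measurable (fun q : ℝ × ℝ × ℝ => Qf α φ q.1 q.2.1 q.2.2) := by
  unfold Qf
  apply StronglyMeasurable.measurable
  apply StronglyMeasurable.integral_prod_right
    (f := fun (q : ℝ × ℝ × ℝ) (μ : ℝ) => Kf μ q.1 * Rf α μ *
      (Real.sinh ((φ + q.2.1) * μ) * Real.sinh ((φ + q.2.2) * μ)))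
  apply Measurable.stronglyMeasurable
  have h1 : Measurable (fun p : (ℝ × ℝ × ℝ) × ℝ => Kf p.2 p.1.1) :=
    measurable_Kf.comp (by fun_prop : Measurable (fun p : (ℝ × ℝ × ℝ) × ℝ => (p.2, p.1.1)))
  have h2 : Measurable (fun p : (ℝ × ℝ × ℝ) × ℝ => Rf α p.2) := by
    unfold Rf
    fun_prop
  have h3 : Measurable (fun p : (ℝ × ℝ × ℝ) × ℝ => Real.sinh ((φ + p.1.2.1) * p.2) *
    Real.sinh ((φ + p.1.2.2) * p.2)) := by
    apply Continuous.measurable
    fun_prop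
  exact (h1.mul h2).mul h3

end Pool.Agent.N124.QD
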