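import Pool.Agent.N124.QD.K2

/-!
# Pointwise limits and domination along a sequence of parameters
-/

set_option autoImplicit false

namespace Pool.Agent.N124.QD

open MeasureTheory Set Filter Topology
open scoped Real
open Pool.Agent.N275.QD Pool.Agent.N789.KF

/-- an admissible sequence of parameters -/
structure Sq (d : ℝ) (t τ σ x x' Y : ℕ → ℝ) : Prop where
  d0 : 0 < d
  t0 : ∀ n, 0 < t n
  σ0 : ∀ n, 0 < σ n
  Y0 : ∀ n, 0 < Y n
  tt : Tendsto t atTop (𝓝 0)
  ττ : Tendsto (fun n => τ n / t n) atTop (𝓝 1)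
  σσ : Tendsto (fun n => σ n / t n) atTop (𝓝 0)
  xx : Tendsto x atTop (𝓝 d)
  xx' : Tendsto x' atTop (𝓝 d)
  YY : Tendsto Y atTop (𝓝 0)
  tY : Tendsto (fun n => t n / Y n ^ 2) atTop (𝓝 0)

variable {d : ℝ} {t τ σ x x' Y : ℕ → ℝ}

/-- the eventual conditions -/
structure Ev (d δ t τ σ x x' Y : ℝ) : Prop where
  d0 : 0 < d
  t0 : 0 < t
  t1 : t ≤ 1
  σ0 : 0 < σ
  σt : σ ≤ t
  τ1 : t / 2 ≤ τ
  τ2 : τ ≤ 2 * t
  x1 : d / 2 ≤ x
  x2 : d / 2 ≤ x'
  Y0 : 0 < Y
  Yδ : 2 * Y / d ≤ δ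

lemma Sq.ev (h : Sq d t τ σ x x' Y) {δ : ℝ} (hδ : 0 < δ) :
    ∀ᶠ n in atTop, Ev d δ (t n) (τ n) (σ n) (x n) (x' n) (Y n) := by
  have hd := h.d0
  have h1 : ∀ᶠ n in atTop, t n < 1 := h.tt.eventually_lt_const one_pos
  have h2 : ∀ᶠ n in atTop, σ n / t n < 1 := h.σσ.eventually_lt_const one_pos
  have h3 : ∀ᶠ n in atTop, 1 / 2 < τ n / t n := h.ττ.eventually_const_lt (by norm_num)
  have h4 : ∀ᶠ n in atTop, τ n / t n < 2 := h.ττ.eventually_lt_const (by norm_num)
  have h5 : ∀ᶠ n in atTop, d / 2 < x n := h.xx.eventually_const_lt (by linarith)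
  have h6 : ∀ᶠ n in atTop, d / 2 < x' n := h.xx'.eventually_const_lt (by linarith)
  have h7 : ∀ᶠ n in atTop, Y n < δ * d / 2 := h.YY.eventually_lt_const (by positivity)
  filter_upwards [h1, h2, h3, h4, h5, h6, h7] with n h1 h2 h3 h4 h5 h6 h7
  have ht := h.t0 n
  rw [div_lt_iff₀ ht] at h2 h4
  rw [lt_div_iff₀ ht] at h3
  refine ⟨hd, ht, h1.le, h.σ0 n, by linarith, by linarith, by linarith, h5.le, h6.le, h.Y0 n, ?_⟩
  rw [div_le_iff₀ hd]
  linarith

/-- the second coordinate in units of `√t` -/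
noncomputable def s' (t σ : ℝ) (p : ℝ × ℝ) : ℝ := p.1 + √(σ / t) * p.2

lemma y'_eq {t σ : ℝ} (ht : 0 < t) (p : ℝ × ℝ) :
    √t * p.1 + √σ * p.2 = √t * s' t σ p := by
  unfold s'
  rw [mul_add, ← mul_assoc, ← Real.sqrt_mul ht.le, mul_div_cancel₀ _ ht.ne']

lemma Sq.s'_lim (h : Sq d t τ σ x x' Y) (p : ℝ × ℝ) :
    Tendsto (fun n => s' (t n) (σ n) p) atTop (𝓝 p.1) := by
  unfold s'
  have h1 : Tendsto (fun n => √(σ n / t n)) atTop (𝓝 0) := by
    have := (Real.continuous_sqrt.tendsto 0).comp h.σσ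
    rw [Real.sqrt_zero] at this
    exact this
  have h2 := (h1.mul_const p.2).const_add p.1
  simpa using h2

lemma Sq.st_lim (h : Sq d t τ σ x x' Y) : Tendsto (fun n => √(t n)) atTop (𝓝 0) := by
  have := (Real.continuous_sqrt.tendsto 0).comp h.tt
  rw [Real.sqrt_zero] at this
  exact this

lemma Sq.y_lim (h : Sq d t τ σ x x' Y) (p : ℝ × ℝ) :
    Tendsto (fun n => √(t n) * p.1) atTop (𝓝 0) := by
  have := h.st_lim.mul_const p.1
  simpa using this

lemma Sq.y'_lim (h : Sq d t τ σ x x' Y) (p : ℝ × ℝ) :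
    Tendsto (fun n => √(t n) * p.1 + √(σ n) * p.2) atTop (𝓝 0) := by
  have h1 := h.st_lim.mul (h.s'_lim p)
  rw [zero_mul] at h1
  refine h1.congr fun n => ?_
  rw [y'_eq (h.t0 n)]

/-- the indicator tends to one -/
lemma Sq.ind_lim (h : Sq d t τ σ x x' Y) (p : ℝ × ℝ) :
    Tendsto (fun n => ind (t n) (σ n) (Y n) p) atTop (𝓝 1) := by
  have h1 : Tendsto (fun n => √(t n / Y n ^ 2)) atTop (𝓝 0) := by
    have := (Real.continuous_sqrt.tendsto 0).comp h.tY
    rw [Real.sqrt_zero] at this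
    exact this
  have h2 : ∀ n, √(t n / Y n ^ 2) = √(t n) / Y n := by
    intro n
    rw [Real.sqrt_div (h.t0 n).le, Real.sqrt_sq (h.Y0 n).le]
  have h3 : Tendsto (fun n => √(t n) / Y n * p.1) atTop (𝓝 0) := by
    have := h1.mul_const p.1
    simp only [h2, zero_mul] at this
    exact this
  have h4 : Tendsto (fun n => √(t n) / Y n * s' (t n) (σ n) p) atTop (𝓝 0) := by
    have := h1.mul (h.s'_lim p)
    simp only [h2, zero_mul] at this
    exact this
  have h5 : ∀ᶠ n in atTop, |√(t n) / Y n * p.1| < 1 := by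
    have := (continuous_abs.tendsto 0).comp h3
    rw [abs_zero] at this
    exact this.eventually_lt_const one_pos
  have h6 : ∀ᶠ n in atTop, |√(t n) / Y n * s' (t n) (σ n) p| < 1 := by
    have := (continuous_abs.tendsto 0).comp h4
    rw [abs_zero] at this
    exact this.eventually_lt_const one_pos
  apply tendsto_const_nhds.congr'
  filter_upwards [h5, h6] with n h5 h6
  have hY := h.Y0 n
  unfold ind
  rw [if_pos]
  constructor
  · rw [div_mul_eq_mul_div, abs_div, abs_of_pos hY, div_lt_one hY] at h5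
    exact h5
  · rw [div_mul_eq_mul_div, abs_div, abs_of_pos hY, div_lt_one hY] at h6
    rw [y'_eq (h.t0 n)]
    exact h6

lemma Sq.r_lim (h : Sq d t τ σ x x' Y) (p : ℝ × ℝ) :
    Tendsto (fun n => rr (x n) (√(t n) * p.1)) atTop (𝓝 d) := by
  have hc : Continuous (fun q : ℝ × ℝ => rr q.1 q.2) := by
    unfold rr
    fun_prop
  have := (hc.tendsto (d, 0)).comp (h.xx.prodMk_nhds (h.y_lim p))
  have e : rr d 0 = d := by
    unfold rr
    rw [zero_pow (by norm_num), add_zero, Real.sqrt_sq h.d0.le]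
  simp only [e] at this
  exact this

lemma Sq.r'_lim (h : Sq d t τ σ x x' Y) (p : ℝ × ℝ) :
    Tendsto (fun n => rr (x' n) (√(t n) * p.1 + √(σ n) * p.2)) atTop (𝓝 d) := by
  have hc : Continuous (fun q : ℝ × ℝ => rr q.1 q.2) := by
    unfold rr
    fun_prop
  have := (hc.tendsto (d, 0)).comp (h.xx'.prodMk_nhds (h.y'_lim p))
  have e : rr d 0 = d := by
    unfold rr
    rw [zero_pow (by norm_num), add_zero, Real.sqrt_sq h.d0.le]
  simp only [e] at this
  exact this

/-- the large argument in units of `1 / t` -/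
lemma Sq.X_lim (h : Sq d t τ σ x x' Y) (p : ℝ × ℝ) :
    Tendsto (fun n => 1 / (rr (x n) (√(t n) * p.1) * rr (x' n) (√(t n) * p.1 + √(σ n) * p.2) /
      (2 * τ n)) / t n) atTop (𝓝 (2 / d ^ 2)) := by
  have hd := h.d0
  have h1 := ((h.r_lim p).mul (h.r'_lim p))
  have h2 := (h.ττ.const_mul 2).div h1 (by positivity)
  have e : 2 * 1 / (d * d) = 2 / d ^ 2 := by ring
  rw [e] at h2
  refine h2.congr' ?_
  filter_upwards [h.ev one_pos] with n hn
  have hx := hn.x1
  have hx' := hn.x2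
  have hτ1 := hn.τ1
  have ht := hn.t0
  have hr := rr_pos (by linarith : 0 < x n) (√(t n) * p.1)
  have hr' := rr_pos (by linarith : 0 < x' n) (√(t n) * p.1 + √(σ n) * p.2)
  have hτ : 0 < τ n := by linarith
  simp only [Pi.div_apply]
  field_simp

/-- the normalised kernel tends to a Gaussian -/
lemma Sq.thn_lim (h : Sq d t τ σ x x' Y) (p : ℝ × ℝ) :
    Tendsto (fun n => thn (τ n) (x n) (x' n) (rr (x n) (√(t n) * p.1))
      (rr (x' n) (√(t n) * p.1 + √(σ n) * p.2))) atTop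
      (𝓝 (Real.exp (-(p.1 ^ 2)) * √(π / 2) / d)) := by
  have hd := h.d0
  have hr := h.r_lim p
  have hr' := h.r'_lim p
  unfold thn
  -- the exponent
  have e1 : Tendsto (fun n => ((rr (x n) (√(t n) * p.1) + rr (x' n) (√(t n) * p.1 + √(σ n) * p.2)) ^ 2 -
      (x n + x' n) ^ 2) / (4 * τ n)) atTop (𝓝 (p.1 ^ 2)) := by
    have k1 := ((tendsto_const_nhds (x := p.1 ^ 2)).div (hr.add h.xx) (by linarith)).add
      (((h.s'_lim p).pow 2).div (hr'.add h.xx') (by linarith))
    have k2 := k1.mul ((hr.add hr').add (h.xx.add h.xx'))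
    have k3 := (k2.div_const 4).mul (h.ττ.inv₀ one_ne_zero)
    have e : (p.1 ^ 2 / (d + d) + p.1 ^ 2 / (d + d)) * (d + d + (d + d)) / 4 * 1⁻¹ = p.1 ^ 2 := by
      field_simp
      ring
    rw [e] at k3
    refine k3.congr' ?_
    filter_upwards [h.ev one_pos] with n hn
    have hx0 : 0 < x n := by have := hn.x1; linarith
    have hx0' : 0 < x' n := by have := hn.x2; linarith
    have ht := hn.t0
    have hτ : 0 < τ n := by have := hn.τ1; linarith
    have a1 := rr_pos hx0 (√(t n) * p.1)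
    have a2 := rr_pos hx0' (√(t n) * p.1 + √(σ n) * p.2)
    have b1 := rr_sq (x n) (√(t n) * p.1)
    have b2 := rr_sq (x' n) (√(t n) * p.1 + √(σ n) * p.2)
    rw [y'_eq ht, mul_pow, Real.sq_sqrt ht.le] at b2
    rw [mul_pow, Real.sq_sqrt ht.le] at b1
    simp only [Pi.div_apply]
    rw [y'_eq ht] at a2 ⊢
    generalize rr (x n) (√(t n) * p.1) = r at *
    generalize rr (x' n) (√(t n) * s' (t n) (σ n) p) = r' at *
    have c1 : p.1 ^ 2 / (r + x n) = (r - x n) / t n := by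
      rw [div_eq_div_iff (by linarith) ht.ne']
      nlinarith
    have c2 : s' (t n) (σ n) p ^ 2 / (r' + x' n) = (r' - x' n) / t n := by
      rw [div_eq_div_iff (by linarith) ht.ne']
      nlinarith
    rw [c1, c2]
    field_simp
    ring
  have e2 := (Real.continuous_exp.tendsto _).comp e1.neg
  have e3 : Tendsto (fun n => rr (x n) (√(t n) * p.1) * rr (x' n) (√(t n) * p.1 + √(σ n) * p.2) /
      (2 * τ n)) atTop atTop := by
    have k := h.X_lim p
    have k1 := k.mul h.tt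
    rw [mul_zero] at k1
    have k2 : Tendsto (fun n => (rr (x n) (√(t n) * p.1) * rr (x' n) (√(t n) * p.1 + √(σ n) * p.2) /
      (2 * τ n))⁻¹) atTop (𝓝[>] 0) := by
      rw [tendsto_nhdsWithin_iff]
      constructor
      · refine k1.congr fun n => ?_
        have := (h.t0 n).ne'
        field_simp
      · filter_upwards [h.ev one_pos] with n hn
        have hx0 : 0 < x n := by have := hn.x1; have := hn.d0; linarith
        have hx0' : 0 < x' n := by have := hn.x2; have := hn.d0; linarith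
        have hτ : 0 < τ n := by have := hn.τ1; have := hn.t0; linarith
        have a1 := rr_pos hx0 (√(t n) * p.1)
        have a2 := rr_pos hx0' (√(t n) * p.1 + √(σ n) * p.2)
        rw [mem_Ioi]
        positivity
    have k3 := tendsto_inv_nhdsGT_zero.comp k2
    refine k3.congr fun n => ?_
    simp
  have e4 := kap_tendsto.comp e3
  have e5 : Tendsto (fun n => √(rr (x n) (√(t n) * p.1) * rr (x' n) (√(t n) * p.1 + √(σ n) * p.2)))
      atTop (𝓝 d) := by
    have k := (Real.continuous_sqrt.tendsto (d * d)).comp (hr.mul hr')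
    rw [Real.sqrt_mul_self hd.le] at k
    exact k
  exact ((e2.mul e4).div e5 hd.ne')

/-- domination of the normalised kernel -/
lemma Ev.thn_le {δ t τ σ x x' Y : ℝ} (h : Ev d δ t τ σ x x' Y) (p : ℝ × ℝ) :
    0 ≤ thn τ x x' (rr x (√t * p.1)) (rr x' (√t * p.1 + √σ * p.2)) ∧
    thn τ x x' (rr x (√t * p.1)) (rr x' (√t * p.1 + √σ * p.2)) ≤
      Real.exp (-(p.1 ^ 2 / 8)) * (√(π / 2) * (2 / d)) := by
  have hd := h.d0
  have hx0 : 0 < x := by have := h.x1; linarith
  have hx0' : 0 < x' := by have := h.x2; linarith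
  have ht := h.t0
  have hτ : 0 < τ := by have := h.τ1; linarith
  have a1 := rr_pos hx0 (√t * p.1)
  have a2 := rr_pos hx0' (√t * p.1 + √σ * p.2)
  have b1 := rr_sq x (√t * p.1)
  have b2 := rr_sq x' (√t * p.1 + √σ * p.2)
  have c1 := rr_ge hx0 (√t * p.1)
  have c2 := rr_ge hx0' (√t * p.1 + √σ * p.2)
  rw [mul_pow, Real.sq_sqrt ht.le] at b1
  generalize rr x (√t * p.1) = r at *
  generalize rr x' (√t * p.1 + √σ * p.2) = r' at *
  have hX : 0 < r * r' / (2 * τ) := by positivity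
  have k0 := kap_nonneg hX
  have k1 := kap_le hX
  unfold thn
  refine ⟨by positivity, ?_⟩
  have e1 : Real.exp (-(((r + r') ^ 2 - (x + x') ^ 2) / (4 * τ))) ≤ Real.exp (-(p.1 ^ 2 / 8)) := by
    apply Real.exp_le_exp.2
    apply neg_le_neg
    rw [le_div_iff₀ (by positivity)]
    have m1 : x * x' ≤ r * r' := mul_le_mul c1 c2 hx0'.le a1.le
    have m2 : t * p.1 ^ 2 ≤ (r + r') ^ 2 - (x + x') ^ 2 := by
      have := sq_nonneg (√t * p.1 + √σ * p.2)
      nlinarith
    have m3 : p.1 ^ 2 / 8 * (4 * τ) ≤ t * p.1 ^ 2 := by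
      have := h.τ2
      have := mul_le_mul_of_nonneg_right this (sq_nonneg p.1)
      nlinarith
    linarith
  have e2 : d / 2 ≤ √(r * r') := by
    apply Real.le_sqrt_of_sq_le
    have := h.x1
    have := h.x2
    calc (d / 2) ^ 2 = d / 2 * (d / 2) := by ring
      _ ≤ r * r' := mul_le_mul (by linarith) (by linarith) (by linarith) a1.le
  have e3 : 0 < √(r * r') := by positivity
  rw [div_le_iff₀ e3]
  calc Real.exp (-(((r + r') ^ 2 - (x + x') ^ 2) / (4 * τ))) * kap (r * r' / (2 * τ))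
      ≤ Real.exp (-(p.1 ^ 2 / 8)) * √(π / 2) := by gcongr
    _ = Real.exp (-(p.1 ^ 2 / 8)) * (√(π / 2) * (2 / d)) * (d / 2) := by field_simp
    _ ≤ Real.exp (-(p.1 ^ 2 / 8)) * (√(π / 2) * (2 / d)) * √(r * r') := by gcongr

end Pool.Agent.N124.QD
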