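import Pool.Agent.N124.QD.K3

/-!
# The second order term: domination and limit
-/

set_option autoImplicit false

namespace Pool.Agent.N124.QD

open MeasureTheory Set Filter Topology
open scoped Real
open Pool.Agent.N275.QD Pool.Agent.N789.KF

variable {d : ℝ} {t τ σ x x' Y : ℕ → ℝ}

/-- the symmetrised relative kernel minus its leading term -/
noncomputable def qq (α φ X a a' : ℝ) : ℝ :=
  (Qf α φ X a a' + Qf α φ X (-a) (-a')) / 2 / Kf 0 X - Df α φ

/-- its second order part -/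
noncomputable def qm (α φ X a a' : ℝ) : ℝ :=
  -(D2m α φ * (1 / X) / 2) + ((a + a') ^ 2 * E2m α φ - (a - a') ^ 2 * mm 2 α) / 4

/-- the error term -/
noncomputable def qe (X a a' : ℝ) : ℝ :=
  (1 / X) ^ 2 + ((a + a') ^ 4 + (a - a') ^ 4) + ((a + a') ^ 2 + (a - a') ^ 2) * (1 / X)

lemma qq_approx {α φ δ : ℝ} (hα : 0 < α) (hφ : 0 < φ) (hδ : 0 < δ) (h : φ + δ + α < π / 2) :
    ∃ C : ℝ, 0 ≤ C ∧ ∀ X a a' : ℝ, 0 < X → |a| ≤ δ → |a'| ≤ δ →
      |qq α φ X a a' - qm α φ X a a'| ≤ C * qe X a a' := by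
  obtain ⟨C, hC, hb⟩ := kernel_exp hα hφ hδ h
  refine ⟨C, hC, fun X a a' hX ha ha' => ?_⟩
  have h1 := hb X a a' hX ha ha'
  have hK := Kf_zero_pos hX
  have e1 : qq α φ X a a' - qm α φ X a a' =
      ((Qf α φ X a a' + Qf α φ X (-a) (-a')) / 2 - Kf 0 X * (Df α φ - D2m α φ / (2 * X) +
        ((a + a') ^ 2 * E2m α φ - (a - a') ^ 2 * mm 2 α) / 4)) / Kf 0 X := by
    unfold qq qm
    field_simp
    ring
  have e2 : C * qe X a a' = C * Kf 0 X * (1 / X ^ 2 + ((a + a') ^ 4 + (a - a') ^ 4) +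
      ((a + a') ^ 2 + (a - a') ^ 2) / X) / Kf 0 X := by
    unfold qe
    field_simp
  rw [e1, e2, abs_div, abs_of_pos hK]
  exact div_le_div_of_nonneg_right h1 hK.le

/-- domination of the second order term -/
lemma qq_dom {α φ δ : ℝ} (hα : 0 < α) (hφ : 0 < φ) (hδ : 0 < δ) (h : φ + δ + α < π / 2)
    (hd : 0 < d) : ∃ K : ℝ, 0 ≤ K ∧ ∀ t τ σ x x' Y : ℝ, Ev d δ t τ σ x x' Y → ∀ p : ℝ × ℝ,
      |√t * p.1| < Y → |√t * p.1 + √σ * p.2| < Y →
      |qq α φ (rr x (√t * p.1) * rr x' (√t * p.1 + √σ * p.2) / (2 * τ))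
        (Real.arctan (√t * p.1 / x)) (Real.arctan ((√t * p.1 + √σ * p.2) / x'))| ≤
      K * t * (1 + p.1 ^ 2 + p.2 ^ 2) := by
  obtain ⟨C, hC, hb⟩ := qq_approx hα hφ hδ h
  obtain ⟨b, hbd⟩ : ∃ b : ℝ, b = 16 / d ^ 2 := ⟨_, rfl⟩
  have hb0 : 0 < b := by rw [hbd]; positivity
  refine ⟨|D2m α φ| * b / 2 + C * b ^ 2 + 24 / d ^ 2 * ((|E2m α φ| + |mm 2 α|) / 4 +
    C * (4 * δ ^ 2 + b)), by positivity, ?_⟩
  intro t τ σ x x' Y hE p hy hy'
  have ht := hE.t0
  have hx0 : 0 < x := by have := hE.x1; linarith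
  have hx0' : 0 < x' := by have := hE.x2; linarith
  have hτ : 0 < τ := by have := hE.τ1; linarith
  have a1 := rr_pos hx0 (√t * p.1)
  have a2 := rr_pos hx0' (√t * p.1 + √σ * p.2)
  have c1 := rr_ge hx0 (√t * p.1)
  have c2 := rr_ge hx0' (√t * p.1 + √σ * p.2)
  obtain ⟨X, hX⟩ : ∃ X, X = rr x (√t * p.1) * rr x' (√t * p.1 + √σ * p.2) / (2 * τ) := ⟨_, rfl⟩
  have hX0 : 0 < X := by rw [hX]; positivity
  rw [← hX]
  have hXb : 1 / X ≤ b * t := by
    rw [hX, one_div, inv_div, hbd, div_le_iff₀ (by positivity)]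
    have m1 : d / 2 * (d / 2) ≤ rr x (√t * p.1) * rr x' (√t * p.1 + √σ * p.2) := by
      have := hE.x1
      have := hE.x2
      exact mul_le_mul (by linarith) (by linarith) (by linarith) a1.le
    calc 2 * τ ≤ 4 * t := by have := hE.τ2; linarith
      _ = 16 / d ^ 2 * t * (d / 2 * (d / 2)) := by field_simp; norm_num
      _ ≤ _ := by gcongr
  have hX1 : 0 < 1 / X := by positivity
  -- the angles
  have key : ∀ y z : ℝ, d / 2 ≤ z → |y| < Y →
      |Real.arctan (y / z)| ≤ δ ∧ |Real.arctan (y / z)| ≤ 2 / d * |y| := by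
    intro y z hz hyY
    have hz0 : 0 < z := by linarith
    have k1 : |Real.arctan (y / z)| ≤ 2 / d * |y| := by
      refine (abs_arctan_le _).trans ?_
      rw [abs_div, abs_of_pos hz0, div_le_iff₀ hz0]
      calc |y| = 2 / d * |y| * (d / 2) := by field_simp
        _ ≤ 2 / d * |y| * z := by gcongr
    refine ⟨k1.trans ?_, k1⟩
    have := hE.Yδ
    calc 2 / d * |y| ≤ 2 / d * Y := by gcongr
      _ = 2 * Y / d := by ring
      _ ≤ δ := this
  obtain ⟨ha, ha2⟩ := key _ x hE.x1 hy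
  obtain ⟨ha', ha2'⟩ := key _ x' hE.x2 hy'
  have hs : |s' t σ p| ^ 2 ≤ 2 * p.1 ^ 2 + 2 * p.2 ^ 2 := by
    have k1 : √(σ / t) ≤ 1 := by
      rw [Real.sqrt_le_one]
      rw [div_le_one ht]
      exact hE.σt
    have k2 : √(σ / t) ^ 2 ≤ 1 := pow_le_one₀ (Real.sqrt_nonneg _) k1
    rw [sq_abs]
    unfold s'
    have k3 : (√(σ / t) * p.2) ^ 2 ≤ p.2 ^ 2 := by
      rw [mul_pow]
      exact mul_le_of_le_one_left (sq_nonneg _) k2
    nlinarith [sq_nonneg (p.1 - √(σ / t) * p.2)]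
  have q1 : Real.arctan (√t * p.1 / x) ^ 2 ≤ 4 / d ^ 2 * t * p.1 ^ 2 := by
    rw [← sq_abs (Real.arctan _)]
    calc |Real.arctan (√t * p.1 / x)| ^ 2 ≤ (2 / d * |√t * p.1|) ^ 2 :=
          pow_le_pow_left₀ (abs_nonneg _) ha2 2
      _ = 4 / d ^ 2 * (√t ^ 2 * p.1 ^ 2) := by rw [mul_pow, sq_abs, mul_pow]; ring
      _ = _ := by rw [Real.sq_sqrt ht.le]; ring
  have q2 : Real.arctan ((√t * p.1 + √σ * p.2) / x') ^ 2 ≤
      4 / d ^ 2 * t * (2 * p.1 ^ 2 + 2 * p.2 ^ 2) := by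
    rw [← sq_abs (Real.arctan _)]
    calc |Real.arctan ((√t * p.1 + √σ * p.2) / x')| ^ 2 ≤ (2 / d * |√t * p.1 + √σ * p.2|) ^ 2 :=
          pow_le_pow_left₀ (abs_nonneg _) ha2' 2
      _ = 4 / d ^ 2 * (√t ^ 2 * |s' t σ p| ^ 2) := by
          rw [y'_eq ht, mul_pow, sq_abs, mul_pow, sq_abs]; ring
      _ = 4 / d ^ 2 * t * |s' t σ p| ^ 2 := by rw [Real.sq_sqrt ht.le]; ring
      _ ≤ _ := by gcongr
  have hbb := hb X _ _ hX0 ha ha'
  generalize Real.arctan (√t * p.1 / x) = a at *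
  generalize Real.arctan ((√t * p.1 + √σ * p.2) / x') = a' at *
  obtain ⟨S, hS⟩ : ∃ S, S = (a + a') ^ 2 + (a - a') ^ 2 := ⟨_, rfl⟩
  have hS0 : 0 ≤ S := by rw [hS]; positivity
  have hS1 : S ≤ 24 / d ^ 2 * t * (p.1 ^ 2 + p.2 ^ 2) := by
    have : S = 2 * (a ^ 2 + a' ^ 2) := by rw [hS]; ring
    rw [this]
    have k : 0 ≤ 4 / d ^ 2 * t * p.2 ^ 2 := by positivity
    have e : 24 / d ^ 2 * t * (p.1 ^ 2 + p.2 ^ 2) = 2 * (4 / d ^ 2 * t * p.1 ^ 2 +
      4 / d ^ 2 * t * (2 * p.1 ^ 2 + 2 * p.2 ^ 2)) + 2 * (4 / d ^ 2 * t * p.2 ^ 2) := by ring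
    rw [e]
    linarith
  have hS2 : S ≤ 4 * δ ^ 2 := by
    have : S = 2 * (a ^ 2 + a' ^ 2) := by rw [hS]; ring
    rw [this]
    have k1 : a ^ 2 ≤ δ ^ 2 := by
      rw [← sq_abs a]; exact pow_le_pow_left₀ (abs_nonneg _) ha 2
    have k2 : a' ^ 2 ≤ δ ^ 2 := by
      rw [← sq_abs a']; exact pow_le_pow_left₀ (abs_nonneg _) ha' 2
    linarith
  have he : qe X a a' ≤ b ^ 2 * t + 4 * δ ^ 2 * S + b * S := by
    unfold qe
    have k1 : (1 / X) ^ 2 ≤ b ^ 2 * t := by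
      calc (1 / X) ^ 2 ≤ (b * t) ^ 2 := pow_le_pow_left₀ hX1.le hXb 2
        _ = b ^ 2 * t * t := by ring
        _ ≤ b ^ 2 * t * 1 := by have := hE.t1; gcongr
        _ = _ := mul_one _
    have k2 : (a + a') ^ 4 + (a - a') ^ 4 ≤ 4 * δ ^ 2 * S := by
      calc (a + a') ^ 4 + (a - a') ^ 4 ≤ S * S := by
            rw [hS]; nlinarith [mul_nonneg (sq_nonneg (a + a')) (sq_nonneg (a - a'))]
        _ ≤ 4 * δ ^ 2 * S := by gcongr
    have k3 : ((a + a') ^ 2 + (a - a') ^ 2) * (1 / X) ≤ b * S := by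
      rw [← hS]
      calc S * (1 / X) ≤ S * (b * t) := by gcongr
        _ ≤ S * (b * 1) := by have := hE.t1; gcongr
        _ = _ := by ring
    linarith
  have hm : |qm α φ X a a'| ≤ |D2m α φ| * b / 2 * t + S * ((|E2m α φ| + |mm 2 α|) / 4) := by
    unfold qm
    have k1 : |-(D2m α φ * (1 / X) / 2)| ≤ |D2m α φ| * b / 2 * t := by
      rw [abs_neg, abs_div, abs_mul, abs_of_pos hX1, abs_two]
      calc |D2m α φ| * (1 / X) / 2 ≤ |D2m α φ| * (b * t) / 2 := by gcongr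
        _ = _ := by ring
    have k2 : |((a + a') ^ 2 * E2m α φ - (a - a') ^ 2 * mm 2 α) / 4| ≤
        S * ((|E2m α φ| + |mm 2 α|) / 4) := by
      rw [abs_div, show |(4 : ℝ)| = 4 by norm_num]
      have g1 : |(a + a') ^ 2 * E2m α φ| ≤ S * |E2m α φ| := by
        rw [abs_mul, abs_of_nonneg (sq_nonneg _)]
        apply mul_le_mul_of_nonneg_right _ (abs_nonneg _)
        rw [hS]; have := sq_nonneg (a - a'); linarith
      have g2 : |(a - a') ^ 2 * mm 2 α| ≤ S * |mm 2 α| := by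
        rw [abs_mul, abs_of_nonneg (sq_nonneg _)]
        apply mul_le_mul_of_nonneg_right _ (abs_nonneg _)
        rw [hS]; have := sq_nonneg (a + a'); linarith
      have g3 := (abs_sub ((a + a') ^ 2 * E2m α φ) ((a - a') ^ 2 * mm 2 α))
      linarith
    exact (abs_add_le _ _).trans (add_le_add k1 k2)
  have hq : |qq α φ X a a'| ≤ |qm α φ X a a'| + C * qe X a a' := by
    have := abs_add_le (qq α φ X a a' - qm α φ X a a') (qm α φ X a a')
    rw [sub_add_cancel] at this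
    linarith
  have hCe : C * qe X a a' ≤ C * (b ^ 2 * t + 4 * δ ^ 2 * S + b * S) := by gcongr
  obtain ⟨G, hG⟩ : ∃ G, G = (|E2m α φ| + |mm 2 α|) / 4 + C * (4 * δ ^ 2 + b) := ⟨_, rfl⟩
  have hG0 : 0 ≤ G := by rw [hG]; positivity
  have hfin : |qq α φ X a a'| ≤ (|D2m α φ| * b / 2 + C * b ^ 2) * t + S * G := by
    have : (|D2m α φ| * b / 2 + C * b ^ 2) * t + S * G = (|D2m α φ| * b / 2 * t +
      S * ((|E2m α φ| + |mm 2 α|) / 4)) + C * (b ^ 2 * t + 4 * δ ^ 2 * S + b * S) := by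
      rw [hG]; ring
    rw [this]
    linarith
  rw [← hG]
  refine hfin.trans ?_
  have k5 : S * G ≤ (24 / d ^ 2 * t * (p.1 ^ 2 + p.2 ^ 2)) * G := by gcongr
  obtain ⟨H, hH⟩ : ∃ H, H = |D2m α φ| * b / 2 + C * b ^ 2 := ⟨_, rfl⟩
  have hH0 : 0 ≤ H := by rw [hH]; positivity
  rw [← hH]
  have k6 : 0 ≤ H * t * (p.1 ^ 2 + p.2 ^ 2) := by positivity
  have k7 : 0 ≤ 24 / d ^ 2 * G * t := by positivity
  calc H * t + S * G ≤ H * t + (24 / d ^ 2 * t * (p.1 ^ 2 + p.2 ^ 2)) * G := by linarith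
    _ ≤ (H * t + (24 / d ^ 2 * t * (p.1 ^ 2 + p.2 ^ 2)) * G) + (H * t * (p.1 ^ 2 + p.2 ^ 2) +
        24 / d ^ 2 * G * t) := by linarith
    _ = (H + 24 / d ^ 2 * G) * t * (1 + p.1 ^ 2 + p.2 ^ 2) := by ring

/-- the arctangent in units of `√t` -/
lemma arctan_lim {t w : ℕ → ℝ} {w0 : ℝ} (ht0 : ∀ n, 0 < t n) (ht : Tendsto t atTop (𝓝 0))
    (hw : Tendsto w atTop (𝓝 w0)) :
    Tendsto (fun n => Real.arctan (√(t n) * w n) / √(t n)) atTop (𝓝 w0) := by
  have h1 : Tendsto (fun n => √(t n)) atTop (𝓝 0) := by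
    have := (Real.continuous_sqrt.tendsto 0).comp ht
    rw [Real.sqrt_zero] at this
    exact this
  have h2 : Tendsto (fun n => √(t n) * w n) atTop (𝓝 0) := by
    have := h1.mul hw
    rwa [zero_mul] at this
  have h3 : ContinuousAt (dslope Real.arctan 0) 0 :=
    continuousAt_dslope_same.2 (Real.hasDerivAt_arctan 0).differentiableAt
  have h4 : dslope Real.arctan 0 0 = 1 := by
    rw [dslope_same, (Real.hasDerivAt_arctan 0).deriv]
    norm_num
  have h5 : Tendsto (fun n => dslope Real.arctan 0 (√(t n) * w n)) atTop (𝓝 1) := by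
    have := h3.tendsto.comp h2
    rw [h4] at this
    exact this
  have h6 := h5.mul hw
  rw [one_mul] at h6
  refine h6.congr fun n => ?_
  have h7 := sub_smul_dslope Real.arctan 0 (√(t n) * w n)
  rw [Real.arctan_zero, sub_zero, sub_zero, smul_eq_mul] at h7
  have h8 : 0 < √(t n) := Real.sqrt_pos.2 (ht0 n)
  rw [← h7]
  field_simp

/-- the limit of the second order term -/
lemma Sq.qq_lim (h : Sq d t τ σ x x' Y) {α φ δ : ℝ} (hα : 0 < α) (hφ : 0 < φ) (hδ : 0 < δ)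
    (hαφ : φ + δ + α < π / 2) (p : ℝ × ℝ) :
    Tendsto (fun n => qq α φ (rr (x n) (√(t n) * p.1) * rr (x' n) (√(t n) * p.1 + √(σ n) * p.2) /
      (2 * τ n)) (Real.arctan (√(t n) * p.1 / x n))
        (Real.arctan ((√(t n) * p.1 + √(σ n) * p.2) / x' n)) / t n) atTop
      (𝓝 ((E2m α φ * p.1 ^ 2 - D2m α φ) / d ^ 2)) := by
  obtain ⟨C, hC, hb⟩ := qq_approx hα hφ hδ hαφ
  have hd := h.d0
  have hXl := h.X_lim p
  have hA : Tendsto (fun n => Real.arctan (√(t n) * p.1 / x n) / √(t n)) atTop (𝓝 (p.1 / d)) := by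
    have := arctan_lim h.t0 h.tt ((tendsto_const_nhds (x := p.1)).div h.xx hd.ne')
    refine this.congr fun n => ?_
    simp only [Pi.div_apply]
    rw [mul_div_assoc]
  have hA' : Tendsto (fun n => Real.arctan ((√(t n) * p.1 + √(σ n) * p.2) / x' n) / √(t n)) atTop
      (𝓝 (p.1 / d)) := by
    have := arctan_lim h.t0 h.tt ((h.s'_lim p).div h.xx' hd.ne')
    refine this.congr fun n => ?_
    simp only [Pi.div_apply]
    rw [y'_eq (h.t0 n), mul_div_assoc]
  have hev := h.ev hδ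
  have hind : ∀ᶠ n in atTop, |√(t n) * p.1| < Y n ∧ |√(t n) * p.1 + √(σ n) * p.2| < Y n := by
    have := (h.ind_lim p).eventually_const_lt (by norm_num : (1 / 2 : ℝ) < 1)
    filter_upwards [this] with n hn
    unfold ind at hn
    by_contra hcon
    rw [if_neg hcon] at hn
    norm_num at hn
  have happ : ∀ᶠ n in atTop,
      |qq α φ (rr (x n) (√(t n) * p.1) * rr (x' n) (√(t n) * p.1 + √(σ n) * p.2) /
      (2 * τ n)) (Real.arctan (√(t n) * p.1 / x n))
        (Real.arctan ((√(t n) * p.1 + √(σ n) * p.2) / x' n)) -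
      qm α φ (rr (x n) (√(t n) * p.1) * rr (x' n) (√(t n) * p.1 + √(σ n) * p.2) /
      (2 * τ n)) (Real.arctan (√(t n) * p.1 / x n))
        (Real.arctan ((√(t n) * p.1 + √(σ n) * p.2) / x' n))| ≤
      C * qe (rr (x n) (√(t n) * p.1) * rr (x' n) (√(t n) * p.1 + √(σ n) * p.2) /
      (2 * τ n)) (Real.arctan (√(t n) * p.1 / x n))
        (Real.arctan ((√(t n) * p.1 + √(σ n) * p.2) / x' n)) := by
    filter_upwards [hev, hind] with n hE hI
    have hx0 : 0 < x n := by have := hE.x1; linarith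
    have hx0' : 0 < x' n := by have := hE.x2; linarith
    have hτ : 0 < τ n := by have := hE.τ1; have := hE.t0; linarith
    have a1 := rr_pos hx0 (√(t n) * p.1)
    have a2 := rr_pos hx0' (√(t n) * p.1 + √(σ n) * p.2)
    have key : ∀ y z : ℝ, d / 2 ≤ z → |y| < Y n → |Real.arctan (y / z)| ≤ δ := by
      intro y z hz hyY
      have hz0 : 0 < z := by linarith
      have k1 : |Real.arctan (y / z)| ≤ 2 / d * |y| := by
        refine (abs_arctan_le _).trans ?_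
        rw [abs_div, abs_of_pos hz0, div_le_iff₀ hz0]
        calc |y| = 2 / d * |y| * (d / 2) := by field_simp
          _ ≤ 2 / d * |y| * z := by gcongr
      refine k1.trans ?_
      have := hE.Yδ
      calc 2 / d * |y| ≤ 2 / d * Y n := by gcongr
        _ = 2 * Y n / d := by ring
        _ ≤ δ := this
    exact hb _ _ _ (by positivity) (key _ _ hE.x1 hI.1) (key _ _ hE.x2 hI.2)
  -- the main part
  have hmain : Tendsto (fun n => qm α φ (rr (x n) (√(t n) * p.1) *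
      rr (x' n) (√(t n) * p.1 + √(σ n) * p.2) / (2 * τ n)) (Real.arctan (√(t n) * p.1 / x n))
        (Real.arctan ((√(t n) * p.1 + √(σ n) * p.2) / x' n)) / t n) atTop
      (𝓝 ((E2m α φ * p.1 ^ 2 - D2m α φ) / d ^ 2)) := by
    have k1 := (hXl.const_mul (D2m α φ)).div_const 2
    have k2 := ((hA.add hA').pow 2).mul_const (E2m α φ)
    have k3 := ((hA.sub hA').pow 2).mul_const (mm 2 α)
    have k4 := k1.neg.add ((k2.sub k3).div_const 4)
    have e : -(D2m α φ * (2 / d ^ 2) / 2) + ((p.1 / d + p.1 / d) ^ 2 * E2m α φ -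
        (p.1 / d - p.1 / d) ^ 2 * mm 2 α) / 4 = (E2m α φ * p.1 ^ 2 - D2m α φ) / d ^ 2 := by
      field_simp
      ring
    rw [e] at k4
    refine k4.congr fun n => ?_
    unfold qm
    have ht := h.t0 n
    have hst : √(t n) ^ 2 = t n := Real.sq_sqrt ht.le
    generalize Real.arctan (√(t n) * p.1 / x n) = a
    generalize Real.arctan ((√(t n) * p.1 + √(σ n) * p.2) / x' n) = a'
    generalize rr (x n) (√(t n) * p.1) * rr (x' n) (√(t n) * p.1 + √(σ n) * p.2) / (2 * τ n) = X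
    have g1 : (a / √(t n) + a' / √(t n)) ^ 2 = (a + a') ^ 2 / t n := by
      rw [← add_div, div_pow, hst]
    have g2 : (a / √(t n) - a' / √(t n)) ^ 2 = (a - a') ^ 2 / t n := by
      rw [← sub_div, div_pow, hst]
    rw [g1, g2]
    ring
  -- the error
  have herr : Tendsto (fun n => C * qe (rr (x n) (√(t n) * p.1) *
      rr (x' n) (√(t n) * p.1 + √(σ n) * p.2) / (2 * τ n)) (Real.arctan (√(t n) * p.1 / x n))
        (Real.arctan ((√(t n) * p.1 + √(σ n) * p.2) / x' n)) / t n) atTop (𝓝 0) := by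
    have k1 := (hXl.pow 2).mul h.tt
    have k2 := (((hA.add hA').pow 4).add ((hA.sub hA').pow 4)).mul h.tt
    have k3 := ((((hA.add hA').pow 2).add ((hA.sub hA').pow 2)).mul hXl).mul h.tt
    have k4 := ((k1.add k2).add k3).const_mul C
    simp only [mul_zero, add_zero] at k4
    refine k4.congr fun n => ?_
    unfold qe
    have ht := h.t0 n
    have hst : √(t n) ^ 2 = t n := Real.sq_sqrt ht.le
    generalize Real.arctan (√(t n) * p.1 / x n) = a
    generalize Real.arctan ((√(t n) * p.1 + √(σ n) * p.2) / x' n) = a'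
    generalize rr (x n) (√(t n) * p.1) * rr (x' n) (√(t n) * p.1 + √(σ n) * p.2) / (2 * τ n) = X
    have g1 : (a / √(t n) + a' / √(t n)) ^ 2 = (a + a') ^ 2 / t n := by
      rw [← add_div, div_pow, hst]
    have g2 : (a / √(t n) - a' / √(t n)) ^ 2 = (a - a') ^ 2 / t n := by
      rw [← sub_div, div_pow, hst]
    have g3 : (a / √(t n) + a' / √(t n)) ^ 4 = (a + a') ^ 4 / t n ^ 2 := by
      rw [show (a / √(t n) + a' / √(t n)) ^ 4 = ((a / √(t n) + a' / √(t n)) ^ 2) ^ 2 by ring, g1]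
      ring
    have g4 : (a / √(t n) - a' / √(t n)) ^ 4 = (a - a') ^ 4 / t n ^ 2 := by
      rw [show (a / √(t n) - a' / √(t n)) ^ 4 = ((a / √(t n) - a' / √(t n)) ^ 2) ^ 2 by ring, g2]
      ring
    rw [g1, g2, g3, g4]
    field_simp
  have hdiff : Tendsto (fun n => qq α φ (rr (x n) (√(t n) * p.1) *
      rr (x' n) (√(t n) * p.1 + √(σ n) * p.2) / (2 * τ n)) (Real.arctan (√(t n) * p.1 / x n))
        (Real.arctan ((√(t n) * p.1 + √(σ n) * p.2) / x' n)) / t n -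
      qm α φ (rr (x n) (√(t n) * p.1) *
      rr (x' n) (√(t n) * p.1 + √(σ n) * p.2) / (2 * τ n)) (Real.arctan (√(t n) * p.1 / x n))
        (Real.arctan ((√(t n) * p.1 + √(σ n) * p.2) / x' n)) / t n) atTop (𝓝 0) := by
    apply squeeze_zero_norm' _ herr
    filter_upwards [happ] with n hn
    rw [Real.norm_eq_abs, ← sub_div, abs_div, abs_of_pos (h.t0 n)]
    exact div_le_div_of_nonneg_right hn (h.t0 n).le
  have := hdiff.add hmain
  rw [zero_add] at this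
  refine this.congr fun n => ?_
  ring

end Pool.Agent.N124.QD
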