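import Pool.Agent.N124.QD.K4

/-!
# Vertical averages: dominated convergence
-/

set_option autoImplicit false

namespace Pool.Agent.N124.QD

open MeasureTheory Set Filter Topology
open scoped Real
open Pool.Agent.N275.QD Pool.Agent.N789.KF

variable {d : ℝ} {t τ σ x x' Y : ℕ → ℝ}

/-- the weight -/
noncomputable def W (t τ σ x x' Y : ℝ) (p : ℝ × ℝ) : ℝ :=
  ind t σ Y p * (gs p.2 * thn τ x x' (rr x (√t * p.1)) (rr x' (√t * p.1 + √σ * p.2)))

/-- the argument of Macdonald's function -/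
noncomputable def XX (t τ σ x x' : ℝ) (p : ℝ × ℝ) : ℝ :=
  rr x (√t * p.1) * rr x' (√t * p.1 + √σ * p.2) / (2 * τ)

noncomputable def aa (t x : ℝ) (p : ℝ × ℝ) : ℝ := Real.arctan (√t * p.1 / x)

noncomputable def aa' (t σ x' : ℝ) (p : ℝ × ℝ) : ℝ := Real.arctan ((√t * p.1 + √σ * p.2) / x')

/-- the dominating function -/
noncomputable def Bd (p : ℝ × ℝ) : ℝ :=
  (Real.exp (-(p.1 ^ 2 / 8)) * (1 + p.1 ^ 2)) * (gs p.2 * (1 + p.2 ^ 2))

lemma Bd_nonneg (p : ℝ × ℝ) : 0 ≤ Bd p := by
  have := gs_pos p.2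
  unfold Bd
  positivity

lemma int_gauss {b : ℝ} (hb : 0 < b) :
    Integrable (fun u : ℝ => Real.exp (-b * u ^ 2) * (1 + u ^ 2)) := by
  have h1 := integrable_exp_neg_mul_sq hb
  have h2 := integrable_rpow_mul_exp_neg_mul_sq hb (s := 2) (by norm_num)
  refine (h1.add h2).congr (Eventually.of_forall fun u => ?_)
  simp only [Pi.add_apply, Real.rpow_two]
  ring

lemma int_Bd : Integrable Bd (volume : Measure (ℝ × ℝ)) := by
  have h1 : Integrable (fun u : ℝ => Real.exp (-(u ^ 2 / 8)) * (1 + u ^ 2)) := by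
    refine (int_gauss (b := 1 / 8) (by norm_num)).congr (Eventually.of_forall fun u => ?_)
    simp only
    rw [show -(1 / 8) * u ^ 2 = -(u ^ 2 / 8) by ring]
  have h2 : Integrable (fun u : ℝ => gs u * (1 + u ^ 2)) := by
    refine ((int_gauss (b := 1 / 4) (by norm_num)).div_const √(4 * π)).congr
      (Eventually.of_forall fun u => ?_)
    simp only [gs]
    rw [show -(1 / 4) * u ^ 2 = -(u ^ 2 / 4) by ring]
    ring
  exact h1.mul_prod h2

lemma measurable_kap : Measurable kap := by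
  unfold kap
  have h : Measurable (fun x : ℝ => Kf 0 x) :=
    measurable_Kf.comp (by fun_prop : Measurable (fun x : ℝ => ((0 : ℝ), x)))
  exact ((Real.measurable_exp).mul (Real.continuous_sqrt.measurable)).mul h

lemma measurable_ind (t σ Y : ℝ) : Measurable (ind t σ Y) := by
  unfold ind
  apply Measurable.ite _ measurable_const measurable_const
  have h1 : IsOpen {p : ℝ × ℝ | |√t * p.1| < Y} := isOpen_lt (by fun_prop) continuous_const
  have h2 : IsOpen {p : ℝ × ℝ | |√t * p.1 + √σ * p.2| < Y} := isOpen_lt (by fun_prop) continuous_const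
  exact (h1.inter h2).measurableSet

lemma measurable_rr (t x : ℝ) : Measurable (fun p : ℝ × ℝ => rr x (√t * p.1)) := by
  unfold rr
  apply Continuous.measurable
  fun_prop

lemma measurable_rr' (t σ x' : ℝ) : Measurable (fun p : ℝ × ℝ => rr x' (√t * p.1 + √σ * p.2)) := by
  unfold rr
  apply Continuous.measurable
  fun_prop

lemma measurable_XX (t τ σ x x' : ℝ) : Measurable (XX t τ σ x x') :=
  ((measurable_rr t x).mul (measurable_rr' t σ x')).div_const _

lemma measurable_aa (t x : ℝ) : Measurable (aa t x) := by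
  unfold aa
  apply Continuous.measurable
  exact Real.continuous_arctan.comp (by fun_prop)

lemma measurable_aa' (t σ x' : ℝ) : Measurable (aa' t σ x') := by
  unfold aa'
  apply Continuous.measurable
  exact Real.continuous_arctan.comp (by fun_prop)

lemma measurable_W (t τ σ x x' Y : ℝ) : Measurable (W t τ σ x x' Y) := by
  have h1 := measurable_rr t x
  have h2 := measurable_rr' t σ x'
  have hg : Measurable (fun p : ℝ × ℝ => gs p.2) := by
    unfold gs
    apply Continuous.measurable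
    fun_prop
  have ht : Measurable (fun p : ℝ × ℝ => thn τ x x' (rr x (√t * p.1)) (rr x' (√t * p.1 + √σ * p.2))) := by
    unfold thn
    refine Measurable.div (Measurable.mul ?_ (measurable_kap.comp (measurable_XX t τ σ x x'))) ?_
    · apply Real.measurable_exp.comp
      apply Measurable.neg
      apply Measurable.div_const
      exact ((h1.add h2).pow_const 2).sub_const _
    · exact Real.continuous_sqrt.measurable.comp (h1.mul h2)
  exact (measurable_ind t σ Y).mul (hg.mul ht)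

lemma measurable_QX (α φ t τ σ x x' : ℝ) : Measurable (fun p => Qf α φ (XX t τ σ x x' p) (aa t x p)
    (aa' t σ x' p) / Kf 0 (XX t τ σ x x' p)) := by
  have h1 := (measurable_Qf α φ).comp ((measurable_XX t τ σ x x').prodMk
    ((measurable_aa t x).prodMk (measurable_aa' t σ x')))
  have h2 := measurable_Kf.comp ((measurable_const (a := (0 : ℝ))).prodMk (measurable_XX t τ σ x x'))
  exact h1.div h2

lemma measurable_qX (α φ t τ σ x x' : ℝ) : Measurable (fun p => qq α φ (XX t τ σ x x' p) (aa t x p)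
    (aa' t σ x' p)) := by
  have h1 := (measurable_Qf α φ).comp ((measurable_XX t τ σ x x').prodMk
    ((measurable_aa t x).prodMk (measurable_aa' t σ x')))
  have h3 := (measurable_Qf α φ).comp ((measurable_XX t τ σ x x').prodMk
    ((measurable_aa t x).neg.prodMk (measurable_aa' t σ x').neg))
  have h2 := measurable_Kf.comp ((measurable_const (a := (0 : ℝ))).prodMk (measurable_XX t τ σ x x'))
  exact (((h1.add h3).div_const 2).div h2).sub_const _

lemma one_add_le (p : ℝ × ℝ) : 1 + p.1 ^ 2 + p.2 ^ 2 ≤ (1 + p.1 ^ 2) * (1 + p.2 ^ 2) := by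
  have := mul_nonneg (sq_nonneg p.1) (sq_nonneg p.2)
  nlinarith

lemma Ev.W_nonneg {δ t τ σ x x' Y : ℝ} (h : Ev d δ t τ σ x x' Y) (p : ℝ × ℝ) :
    0 ≤ W t τ σ x x' Y p := by
  unfold W ind
  have h1 := (h.thn_le p).1
  have h2 := gs_pos p.2
  split_ifs
  · positivity
  · simp

/-- domination of products with the weight -/
lemma Ev.W_mul_le {δ t τ σ x x' Y : ℝ} (h : Ev d δ t τ σ x x' Y) {f : ℝ × ℝ → ℝ} {K : ℝ} (hK : 0 ≤ K)
    (hf : ∀ p : ℝ × ℝ, |√t * p.1| < Y → |√t * p.1 + √σ * p.2| < Y →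
      |f p| ≤ K * (1 + p.1 ^ 2 + p.2 ^ 2)) (p : ℝ × ℝ) :
    |W t τ σ x x' Y p * f p| ≤ K * (√(π / 2) * (2 / d)) * Bd p := by
  have hd := h.d0
  have hB := Bd_nonneg p
  rw [abs_mul, abs_of_nonneg (h.W_nonneg p)]
  unfold W ind
  obtain ⟨h1, h2⟩ := h.thn_le p
  have h3 := gs_pos p.2
  split_ifs with hc
  · have h4 := hf p hc.1 hc.2
    have h5 := one_add_le p
    rw [one_mul]
    unfold Bd
    calc gs p.2 * thn τ x x' (rr x (√t * p.1)) (rr x' (√t * p.1 + √σ * p.2)) * |f p|
        ≤ gs p.2 * (Real.exp (-(p.1 ^ 2 / 8)) * (√(π / 2) * (2 / d))) *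
          (K * ((1 + p.1 ^ 2) * (1 + p.2 ^ 2))) := by
          gcongr
          exact h4.trans (by gcongr)
      _ = _ := by ring
  · rw [zero_mul, zero_mul]
    positivity

/-- the limit of the weight -/
noncomputable def Wl (d : ℝ) (p : ℝ × ℝ) : ℝ :=
  gs p.2 * (Real.exp (-(p.1 ^ 2)) * √(π / 2) / d)

lemma Sq.W_lim (h : Sq d t τ σ x x' Y) (p : ℝ × ℝ) :
    Tendsto (fun n => W (t n) (τ n) (σ n) (x n) (x' n) (Y n) p) atTop (𝓝 (Wl d p)) := by
  have := (h.ind_lim p).mul ((h.thn_lim p).const_mul (gs p.2))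
  rw [one_mul] at this
  exact this

lemma Sq.int_W_lim (h : Sq d t τ σ x x' Y) :
    Tendsto (fun n => ∫ p, W (t n) (τ n) (σ n) (x n) (x' n) (Y n) p) atTop (𝓝 (∫ p, Wl d p)) := by
  apply tendsto_integral_filter_of_dominated_convergence
    (fun p => 1 * (√(π / 2) * (2 / d)) * Bd p)
  · filter_upwards with n
    exact (measurable_W _ _ _ _ _ _).aestronglyMeasurable
  · filter_upwards [h.ev one_pos] with n hn
    filter_upwards with p
    have := hn.W_mul_le (f := fun _ => 1) zero_le_one (fun p _ _ => by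
      rw [abs_one]; have := sq_nonneg p.1; have := sq_nonneg p.2; linarith) p
    rw [mul_one] at this
    exact this
  · exact int_Bd.const_mul _
  · filter_upwards with p
    exact h.W_lim p

lemma Sq.int_q_lim (h : Sq d t τ σ x x' Y) {α φ δ : ℝ} (hα : 0 < α) (hφ : 0 < φ) (hδ : 0 < δ)
    (hαφ : φ + δ + α < π / 2) :
    Tendsto (fun n => ∫ p, W (t n) (τ n) (σ n) (x n) (x' n) (Y n) p *
      (qq α φ (XX (t n) (τ n) (σ n) (x n) (x' n) p) (aa (t n) (x n) p) (aa' (t n) (σ n) (x' n) p) / t n))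
      atTop (𝓝 (∫ p, Wl d p * ((E2m α φ * p.1 ^ 2 - D2m α φ) / d ^ 2))) := by
  obtain ⟨K, hK, hb⟩ := qq_dom hα hφ hδ hαφ h.d0
  apply tendsto_integral_filter_of_dominated_convergence
    (fun p => K * (√(π / 2) * (2 / d)) * Bd p)
  · filter_upwards with n
    exact ((measurable_W _ _ _ _ _ _).mul
      ((measurable_qX α φ _ _ _ _ _).div_const _)).aestronglyMeasurable
  · filter_upwards [h.ev hδ] with n hn
    filter_upwards with p
    rw [Real.norm_eq_abs]
    refine hn.W_mul_le (f := fun p => qq α φ (XX (t n) (τ n) (σ n) (x n) (x' n) p) (aa (t n) (x n) p)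
      (aa' (t n) (σ n) (x' n) p) / t n) hK (fun p h1 h2 => ?_) p
    have h3 := hb _ _ _ _ _ _ hn p h1 h2
    have ht := hn.t0
    rw [abs_div, abs_of_pos ht, div_le_iff₀ ht]
    calc _ ≤ K * t n * (1 + p.1 ^ 2 + p.2 ^ 2) := h3
      _ = _ := by ring
  · exact int_Bd.const_mul _
  · filter_upwards with p
    exact (h.W_lim p).mul (h.qq_lim hα hφ hδ hαφ p)

lemma int_Wl_mul (d a b : ℝ) :
    ∫ p : ℝ × ℝ, Wl d p * ((a * p.1 ^ 2 - b) / d ^ 2) =
      ((a / 2 - b) / d ^ 2) * ∫ p : ℝ × ℝ, Wl d p := by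
  have h1 : ∀ (f : ℝ → ℝ), ∫ p : ℝ × ℝ, Wl d p * f p.1 =
      (√(π / 2) / d) * ((∫ v, gs v) * ∫ s, Real.exp (-(s ^ 2)) * f s) := by
    intro f
    have := integral_prod_mul (μ := (volume : Measure ℝ)) (ν := (volume : Measure ℝ))
      (fun s => Real.exp (-(s ^ 2)) * f s) gs
    rw [mul_comm (∫ v, gs v), ← this, ← integral_const_mul]
    rw [Measure.volume_eq_prod]
    congr 1
    ext p
    unfold Wl
    ring
  have h2 : ∫ p : ℝ × ℝ, Wl d p = (√(π / 2) / d) * ((∫ v, gs v) * ∫ s, Real.exp (-(s ^ 2))) := by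
    have := h1 (fun _ => 1)
    simpa using this
  have i0 : Integrable (fun s : ℝ => Real.exp (-(s ^ 2))) := by
    have := integrable_exp_neg_mul_sq (b := 1) one_pos
    simpa using this
  have i2 : Integrable (fun s : ℝ => Real.exp (-(s ^ 2)) * s ^ 2) := by
    have := integrable_rpow_mul_exp_neg_mul_sq (b := 1) one_pos (s := 2) (by norm_num)
    refine this.congr (Eventually.of_forall fun s => ?_)
    simp only [Real.rpow_two]
    rw [mul_comm, neg_one_mul]
  have h3 : ∫ s : ℝ, Real.exp (-(s ^ 2)) * s ^ 2 = (∫ s : ℝ, Real.exp (-(s ^ 2))) / 2 := by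
    have i1 : Integrable (fun s : ℝ => s * Real.exp (-(s ^ 2))) := by
      have := integrable_mul_exp_neg_mul_sq (b := 1) one_pos
      simpa using this
    have hd : ∀ s : ℝ, HasDerivAt (fun s : ℝ => s * Real.exp (-(s ^ 2)))
        (Real.exp (-(s ^ 2)) - 2 * (Real.exp (-(s ^ 2)) * s ^ 2)) s := by
      intro s
      have e1 : HasDerivAt (fun s : ℝ => Real.exp (-(s ^ 2))) (Real.exp (-(s ^ 2)) * (-(2 * s))) s := by
        have := ((hasDerivAt_pow 2 s).neg).exp
        simpa using this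
      refine ((hasDerivAt_id s).mul e1).congr_deriv ?_
      simp only [id]
      ring
    have := integral_eq_zero_of_hasDerivAt_of_integrable hd (i0.sub (i2.const_mul 2)) i1
    rw [integral_sub i0 (i2.const_mul 2), integral_const_mul] at this
    linarith
  rw [h1 (fun s => (a * s ^ 2 - b) / d ^ 2), h2]
  have e : ∫ s : ℝ, Real.exp (-(s ^ 2)) * ((a * s ^ 2 - b) / d ^ 2) =
      (a * (∫ s : ℝ, Real.exp (-(s ^ 2)) * s ^ 2) - b * ∫ s : ℝ, Real.exp (-(s ^ 2))) / d ^ 2 := by
    rw [← integral_const_mul, ← integral_const_mul, ← integral_sub (i2.const_mul a) (i0.const_mul b),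
      ← integral_div]
    congr 1
    ext s
    ring
  rw [e, h3]
  ring

lemma int_Wl_pos (hd : 0 < d) : 0 < ∫ p : ℝ × ℝ, Wl d p := by
  have hint : Integrable (Wl d) (volume : Measure (ℝ × ℝ)) := by
    refine Integrable.mono' (int_Bd.const_mul (√(π / 2) / d)) ?_ ?_
    · apply Continuous.aestronglyMeasurable
      unfold Wl gs
      fun_prop
    · filter_upwards with p
      have h3 := gs_pos p.2
      unfold Wl Bd
      rw [Real.norm_eq_abs, abs_of_nonneg (by positivity)]
      have h1 : Real.exp (-(p.1 ^ 2)) ≤ Real.exp (-(p.1 ^ 2 / 8)) := by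
        apply Real.exp_le_exp.2
        have := sq_nonneg p.1
        linarith
      have h2 : (1 : ℝ) ≤ (1 + p.1 ^ 2) * (1 + p.2 ^ 2) := by
        have := sq_nonneg p.1
        have := sq_nonneg p.2
        nlinarith
      calc gs p.2 * (Real.exp (-(p.1 ^ 2)) * √(π / 2) / d) =
          √(π / 2) / d * (Real.exp (-(p.1 ^ 2)) * gs p.2 * 1) := by ring
        _ ≤ √(π / 2) / d * (Real.exp (-(p.1 ^ 2 / 8)) * gs p.2 * ((1 + p.1 ^ 2) * (1 + p.2 ^ 2))) := by
          gcongr
        _ = _ := by ring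
  rw [integral_pos_iff_support_of_nonneg]
  · have : Function.support (Wl d) = univ := by
      ext p
      simp only [Function.mem_support, mem_univ, iff_true]
      have h3 := gs_pos p.2
      unfold Wl
      positivity
    rw [this]
    simp
  · intro p
    have h3 := gs_pos p.2
    simp only [Pi.zero_apply]
    unfold Wl
    positivity
  · exact hint

/-- symmetrisation -/
lemma integral_sym {f : ℝ × ℝ → ℝ} (hf : Integrable f) :
    ∫ p, f p = ∫ p, (f p + f (-p)) / 2 := by
  rw [integral_div, integral_add hf hf.comp_neg, integral_neg_eq_self]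
  ring

lemma ind_neg (t σ Y : ℝ) (p : ℝ × ℝ) : ind t σ Y (-p) = ind t σ Y p := by
  unfold ind
  have h1 : |√t * (-p).1| = |√t * p.1| := by
    rw [Prod.fst_neg, mul_neg, abs_neg]
  have h2 : |√t * (-p).1 + √σ * (-p).2| = |√t * p.1 + √σ * p.2| := by
    rw [Prod.fst_neg, Prod.snd_neg, mul_neg, mul_neg, ← neg_add, abs_neg]
  rw [h1, h2]

lemma rr_neg1 (t x : ℝ) (p : ℝ × ℝ) : rr x (√t * (-p).1) = rr x (√t * p.1) := by
  rw [Prod.fst_neg, mul_neg, rr_neg]

lemma rr_neg2 (t σ x' : ℝ) (p : ℝ × ℝ) : rr x' (√t * (-p).1 + √σ * (-p).2) =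
    rr x' (√t * p.1 + √σ * p.2) := by
  rw [Prod.fst_neg, Prod.snd_neg, mul_neg, mul_neg, ← neg_add, rr_neg]

lemma W_neg (t τ σ x x' Y : ℝ) (p : ℝ × ℝ) : W t τ σ x x' Y (-p) = W t τ σ x x' Y p := by
  unfold W
  rw [ind_neg, rr_neg1, rr_neg2]
  have : gs (-p).2 = gs p.2 := by
    unfold gs
    rw [Prod.snd_neg, neg_sq]
  rw [this]

lemma XX_neg (t τ σ x x' : ℝ) (p : ℝ × ℝ) : XX t τ σ x x' (-p) = XX t τ σ x x' p := by
  unfold XX
  rw [rr_neg1, rr_neg2]

lemma aa_neg (t x : ℝ) (p : ℝ × ℝ) : aa t x (-p) = - aa t x p := by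
  unfold aa
  rw [Prod.fst_neg, mul_neg, neg_div, Real.arctan_neg]

lemma aa'_neg (t σ x' : ℝ) (p : ℝ × ℝ) : aa' t σ x' (-p) = - aa' t σ x' p := by
  unfold aa'
  rw [Prod.fst_neg, Prod.snd_neg, mul_neg, mul_neg, ← neg_add, neg_div, Real.arctan_neg]

end Pool.Agent.N124.QD
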